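import Mathlib

set_option autoImplicit false
open MeasureTheory

namespace Pool.Agent.Cone

/-- `∫ e^{-a‖ξ‖ + i x·ξ} ‖ξ‖^(k-1) dξ` -/
noncomputable def U (d k : ℕ) (a : ℂ) (x : EuclideanSpace ℝ (Fin d)) : ℂ :=
  ∫ ξ : EuclideanSpace ℝ (Fin d),
    Complex.exp (-(a * (‖ξ‖ : ℂ)) + Complex.I * ((inner ℝ x ξ : ℝ) : ℂ)) *
      ((‖ξ‖ ^ ((k : ℝ) - 1) : ℝ) : ℂ)

/-- the exponent `(d-1)/2` -/
noncomputable def gm (d : ℕ) : ℝ := ((d : ℝ) - 1) / 2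

/-- the weight `((1+(t+r)²)(1+(t-r)²))^(-κ) r^D` -/
noncomputable def rho (κ : ℝ) (D : ℕ) (t r : ℝ) : ℝ :=
  ((1 + (t + r) ^ 2) * (1 + (t - r) ^ 2)) ^ (-κ) * r ^ D

/-- `1/(1+y²)` -/
noncomputable def ca (y : ℝ) : ℝ := 1 / (1 + y ^ 2)

end Pool.Agent.Cone
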