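import Pool.Agent.ConeOI.Defs

set_option autoImplicit false
open MeasureTheory


namespace Pool.Agent.Cone

namespace J10781

/-! ### the subordination formula -/

/-- inverse of `y ↦ r y - a / (2 y)` -/
noncomputable def subG (a r u : ℝ) : ℝ := (u + Real.sqrt (u ^ 2 + 2 * a * r)) / (2 * r)

theorem sub_abs_lt (a r u : ℝ) (ha : 0 < a) (hr : 0 < r) :
    |u| < Real.sqrt (u ^ 2 + 2 * a * r) := by
  rw [← Real.sqrt_sq_eq_abs]
  exact Real.sqrt_lt_sqrt (sq_nonneg u) (by have : 0 < 2 * a * r := by positivity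
                                            linarith)

theorem subG_pos (a r u : ℝ) (ha : 0 < a) (hr : 0 < r) : 0 < subG a r u := by
  unfold subG
  have h := (abs_lt.mp (sub_abs_lt a r u ha hr)).1
  have : 0 < u + Real.sqrt (u ^ 2 + 2 * a * r) := by
    have h2 := neg_abs_le u
    have h3 := sub_abs_lt a r u ha hr
    linarith
  positivity

theorem subG_left (a r u : ℝ) (ha : 0 < a) (hr : 0 < r) :
    r * subG a r u - a / (2 * subG a r u) = u := by
  have h0 := subG_pos a r u ha hr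
  have hs : Real.sqrt (u ^ 2 + 2 * a * r) ^ 2 = u ^ 2 + 2 * a * r :=
    Real.sq_sqrt (by positivity)
  have hquad : r * subG a r u ^ 2 - u * subG a r u - a / 2 = 0 := by
    unfold subG
    generalize Real.sqrt (u ^ 2 + 2 * a * r) = s at hs
    field_simp
    have : s ^ 2 = u ^ 2 + 2 * a * r := hs
    linear_combination this
  generalize subG a r u = y at *
  field_simp
  linarith

theorem subG_right (a r y : ℝ) (ha : 0 < a) (hr : 0 < r) (hy : 0 < y) :
    subG a r (r * y - a / (2 * y)) = y := by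
  unfold subG
  have h1 : (r * y - a / (2 * y)) ^ 2 + 2 * a * r = (r * y + a / (2 * y)) ^ 2 := by
    field_simp
    ring
  rw [h1, Real.sqrt_sq (by positivity)]
  field_simp
  ring

theorem subG_deriv (a r u : ℝ) (ha : 0 < a) (hr : 0 < r) :
    HasDerivAt (subG a r) ((1 + u / Real.sqrt (u ^ 2 + 2 * a * r)) / (2 * r)) u := by
  unfold subG
  have h0 : u ^ 2 + 2 * a * r ≠ 0 := by positivity
  have h1 : HasDerivAt (fun u : ℝ => u ^ 2 + 2 * a * r) (2 * u) u := by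
    have := ((hasDerivAt_id u).pow 2).add_const (2 * a * r)
    simpa using this
  have h2 := h1.sqrt h0
  have h3 := ((hasDerivAt_id u).add h2).div_const (2 * r)
  refine h3.congr_deriv ?_
  congr 2
  rw [mul_div_mul_left _ _ (by norm_num : (2 : ℝ) ≠ 0)]

theorem sub_gauss (a r : ℝ) (ha : 0 < a) (hr : 0 < r) :
    ∫ u : ℝ, (1 + u / Real.sqrt (u ^ 2 + 2 * a * r)) * Real.exp (-u ^ 2) =
      Real.sqrt Real.pi := by
  have hint : Integrable (fun u : ℝ => Real.exp (-u ^ 2)) := by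
    have := integrable_exp_neg_mul_sq (b := 1) one_pos
    simpa using this
  have hc : Continuous (fun u : ℝ => u / Real.sqrt (u ^ 2 + 2 * a * r)) := by
    refine continuous_id.div ?_ ?_
    · fun_prop
    · intro u
      have : 0 < u ^ 2 + 2 * a * r := by positivity
      exact (Real.sqrt_pos.mpr this).ne'
  have hint2 : Integrable (fun u : ℝ => u / Real.sqrt (u ^ 2 + 2 * a * r) * Real.exp (-u ^ 2)) := by
    refine hint.mono' ?_ ?_
    · exact (hc.mul (by fun_prop)).aestronglyMeasurable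
    · refine Filter.Eventually.of_forall fun u => ?_
      have hp : 0 < Real.sqrt (u ^ 2 + 2 * a * r) := Real.sqrt_pos.mpr (by positivity)
      rw [norm_mul, norm_div, Real.norm_eq_abs, Real.norm_eq_abs, Real.norm_eq_abs,
        abs_of_pos hp, abs_of_pos (Real.exp_pos _)]
      have : |u| / Real.sqrt (u ^ 2 + 2 * a * r) ≤ 1 := by
        rw [div_le_one hp]
        exact (sub_abs_lt a r u ha hr).le
      calc |u| / Real.sqrt (u ^ 2 + 2 * a * r) * Real.exp (-u ^ 2) ≤ 1 * Real.exp (-u ^ 2) :=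
            mul_le_mul_of_nonneg_right this (Real.exp_pos _).le
        _ = _ := one_mul _
  have hodd : ∫ u : ℝ, u / Real.sqrt (u ^ 2 + 2 * a * r) * Real.exp (-u ^ 2) = 0 := by
    have h := integral_neg_eq_self
      (fun u : ℝ => u / Real.sqrt (u ^ 2 + 2 * a * r) * Real.exp (-u ^ 2)) volume
    have h2 : ∀ u : ℝ, (-u) / Real.sqrt ((-u) ^ 2 + 2 * a * r) * Real.exp (-(-u) ^ 2) =
        -(u / Real.sqrt (u ^ 2 + 2 * a * r) * Real.exp (-u ^ 2)) := by
      intro u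
      rw [neg_sq]
      ring
    simp only [h2] at h
    rw [integral_neg] at h
    linarith
  have hsplit : ∀ u : ℝ, (1 + u / Real.sqrt (u ^ 2 + 2 * a * r)) * Real.exp (-u ^ 2) =
      Real.exp (-u ^ 2) + u / Real.sqrt (u ^ 2 + 2 * a * r) * Real.exp (-u ^ 2) := by
    intro u; ring
  simp_rw [hsplit]
  rw [integral_add hint hint2, hodd, add_zero]
  have := integral_gaussian 1
  simpa using this

theorem subord (a r : ℝ) (ha : 0 < a) (hr : 0 < r) :
    ∫ y in Set.Ioi (0 : ℝ), Real.exp (-(y ^ 2 * r ^ 2) - a ^ 2 / (4 * y ^ 2)) =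
      Real.sqrt Real.pi / 2 * (Real.exp (-(a * r)) / r) := by
  have himg : subG a r '' Set.univ = Set.Ioi 0 := by
    ext y
    constructor
    · rintro ⟨u, _, rfl⟩
      exact subG_pos a r u ha hr
    · intro hy
      exact ⟨r * y - a / (2 * y), Set.mem_univ _, subG_right a r y ha hr hy⟩
  have hinj : Set.InjOn (subG a r) Set.univ := by
    intro u _ v _ huv
    rw [← subG_left a r u ha hr, huv, subG_left a r v ha hr]
  rw [← himg, integral_image_eq_integral_abs_deriv_smul MeasurableSet.univ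
    (fun u _ => (subG_deriv a r u ha hr).hasDerivWithinAt) hinj, Measure.restrict_univ]
  have hpt : ∀ u : ℝ, |(1 + u / Real.sqrt (u ^ 2 + 2 * a * r)) / (2 * r)| •
      Real.exp (-(subG a r u ^ 2 * r ^ 2) - a ^ 2 / (4 * subG a r u ^ 2)) =
      (Real.exp (-(a * r)) / (2 * r)) *
        ((1 + u / Real.sqrt (u ^ 2 + 2 * a * r)) * Real.exp (-u ^ 2)) := by
    intro u
    have hp : 0 < Real.sqrt (u ^ 2 + 2 * a * r) := Real.sqrt_pos.mpr (by positivity)
    have h1 : 0 < 1 + u / Real.sqrt (u ^ 2 + 2 * a * r) := by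
      have h2 : -1 < u / Real.sqrt (u ^ 2 + 2 * a * r) := by
        rw [lt_div_iff₀ hp]
        have := (abs_lt.mp (sub_abs_lt a r u ha hr)).1
        linarith
      linarith
    rw [abs_of_pos (by positivity), smul_eq_mul]
    have h3 : -(subG a r u ^ 2 * r ^ 2) - a ^ 2 / (4 * subG a r u ^ 2) = -(a * r) + -u ^ 2 := by
      have h4 := subG_left a r u ha hr
      have h5 := subG_pos a r u ha hr
      generalize subG a r u = y at *
      rw [← h4]
      field_simp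
      ring
    rw [h3, Real.exp_add]
    ring
  simp_rw [hpt]
  rw [integral_const_mul, sub_gauss a r ha hr]
  field_simp
/-! ### the one dimensional integral -/

/-- the one dimensional integrand -/
noncomputable def hfun (d : ℕ) (b y : ℝ) : ℝ :=
  (Real.sqrt Real.pi / y) ^ d * Real.exp (-(b / y ^ 2))

theorem rpow_eq_pow (d : ℕ) (y : ℝ) (hy : 0 < y) :
    (Real.pi / y ^ 2) ^ ((d : ℝ) / 2) = (Real.sqrt Real.pi / y) ^ d := by
  have hp := Real.pi_pos
  have h1 : Real.pi / y ^ 2 = (Real.sqrt Real.pi / y) ^ 2 := by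
    rw [div_pow, Real.sq_sqrt hp.le]
  rw [h1, ← Real.rpow_natCast _ 2, ← Real.rpow_mul (by positivity), ← Real.rpow_natCast _ d]
  congr 1
  push_cast
  ring

theorem hfun_nonneg (d : ℕ) (b y : ℝ) (hy : 0 < y) : 0 ≤ hfun d b y := by
  unfold hfun
  positivity

theorem hfun_bound (d : ℕ) (hd : 2 ≤ d) (b : ℝ) (hb : 0 < b) (y : ℝ) (hy : 0 < y) :
    hfun d b y ≤ (2 * Real.sqrt Real.pi ^ d * (1 + (Nat.factorial d : ℝ) / b ^ d)) *
      (1 + y ^ 2)⁻¹ := by
  have hp : 0 ≤ Real.sqrt Real.pi ^ d := by positivity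
  unfold hfun
  rw [← div_eq_mul_inv, le_div_iff₀ (by positivity), div_pow]
  rcases le_total 1 y with h1 | h1
  · have e1 : Real.exp (-(b / y ^ 2)) ≤ 1 := Real.exp_le_one_iff.mpr (by
      have : 0 ≤ b / y ^ 2 := by positivity
      linarith)
    have e2 : y ^ 2 ≤ y ^ d := pow_le_pow_right₀ h1 hd
    have e3 : 1 + y ^ 2 ≤ 2 * y ^ d := by
      have : 1 ≤ y ^ 2 := one_le_pow₀ h1
      linarith
    calc Real.sqrt Real.pi ^ d / y ^ d * Real.exp (-(b / y ^ 2)) * (1 + y ^ 2)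
        ≤ Real.sqrt Real.pi ^ d / y ^ d * 1 * (2 * y ^ d) := by gcongr
      _ = 2 * Real.sqrt Real.pi ^ d := by
          field_simp
      _ ≤ 2 * Real.sqrt Real.pi ^ d * (1 + (Nat.factorial d : ℝ) / b ^ d) := by
          have : 0 ≤ (Nat.factorial d : ℝ) / b ^ d := by positivity
          have h2 : 0 ≤ 2 * Real.sqrt Real.pi ^ d := by positivity
          nlinarith
  · have e1 : Real.exp (-(b / y ^ 2)) ≤ (Nat.factorial d : ℝ) / (b / y ^ 2) ^ d := by
      rw [Real.exp_neg, ← one_div, div_le_div_iff₀ (Real.exp_pos _) (by positivity), one_mul]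
      have := Real.pow_div_factorial_le_exp (x := b / y ^ 2) (by positivity) d
      rw [div_le_iff₀ (by positivity)] at this
      linarith
    have e2 : 1 + y ^ 2 ≤ 2 := by nlinarith
    have e3 : y ^ d ≤ 1 := pow_le_one₀ hy.le h1
    calc Real.sqrt Real.pi ^ d / y ^ d * Real.exp (-(b / y ^ 2)) * (1 + y ^ 2)
        ≤ Real.sqrt Real.pi ^ d / y ^ d * ((Nat.factorial d : ℝ) / (b / y ^ 2) ^ d) * 2 := by
          gcongr
      _ = 2 * Real.sqrt Real.pi ^ d * ((Nat.factorial d : ℝ) / b ^ d) * y ^ d := by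
          rw [div_pow, ← pow_mul]
          have : y ^ (2 * d) = y ^ d * y ^ d := by rw [two_mul, pow_add]
          rw [this]
          field_simp
      _ ≤ 2 * Real.sqrt Real.pi ^ d * ((Nat.factorial d : ℝ) / b ^ d) * 1 := by
          gcongr
      _ ≤ 2 * Real.sqrt Real.pi ^ d * (1 + (Nat.factorial d : ℝ) / b ^ d) := by
          rw [mul_one, mul_add]
          have h2 : 0 ≤ 2 * Real.sqrt Real.pi ^ d * 1 := by positivity
          linarith

theorem hfun_meas (d : ℕ) (b : ℝ) : Measurable (hfun d b) := by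
  unfold hfun
  fun_prop

theorem hfun_int (d : ℕ) (hd : 2 ≤ d) (b : ℝ) (hb : 0 < b) :
    IntegrableOn (hfun d b) (Set.Ioi 0) := by
  have h := (integrable_inv_one_add_sq.const_mul
    (2 * Real.sqrt Real.pi ^ d * (1 + (Nat.factorial d : ℝ) / b ^ d))).integrableOn
    (s := Set.Ioi 0)
  refine Integrable.mono' h (hfun_meas d b).aestronglyMeasurable ?_
  filter_upwards [ae_restrict_mem measurableSet_Ioi] with y hy
  rw [Real.norm_eq_abs, abs_of_nonneg (hfun_nonneg d b y hy)]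
  exact hfun_bound d hd b hb y hy

theorem hfun_pos (d : ℕ) (hd : 2 ≤ d) (b : ℝ) (hb : 0 < b) :
    0 < ∫ y in Set.Ioi (0 : ℝ), hfun d b y := by
  rw [setIntegral_pos_iff_support_of_nonneg_ae _ (hfun_int d hd b hb)]
  · have h1 : Set.Ioi (0 : ℝ) ⊆ Function.support (hfun d b) ∩ Set.Ioi 0 := by
      intro y hy
      have hy' : 0 < y := hy
      refine ⟨?_, hy⟩
      rw [Function.mem_support]
      unfold hfun
      positivity
    refine lt_of_lt_of_le ?_ (measure_mono h1)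
    rw [Real.volume_Ioi]
    exact ENNReal.zero_lt_top
  · filter_upwards [ae_restrict_mem measurableSet_Ioi] with y hy
    exact hfun_nonneg d b y hy

theorem hfun_scale (d : ℕ) (A : ℝ) (hA : 0 < A) :
    ∫ y in Set.Ioi (0 : ℝ), hfun d (A / 4) y =
      A ^ (-gm d) * ∫ y in Set.Ioi (0 : ℝ), hfun d (1 / 4) y := by
  have hs : 0 < Real.sqrt A := Real.sqrt_pos.mpr hA
  have h := integral_comp_mul_left_Ioi (hfun d (A / 4)) 0 hs
  rw [mul_zero, smul_eq_mul] at h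
  have hpt : ∀ y ∈ Set.Ioi (0 : ℝ), hfun d (A / 4) (Real.sqrt A * y) =
      ((Real.sqrt A) ^ d)⁻¹ * hfun d (1 / 4) y := by
    intro y hy
    have hy' : 0 < y := hy
    unfold hfun
    have e1 : A / 4 / (Real.sqrt A * y) ^ 2 = 1 / 4 / y ^ 2 := by
      rw [mul_pow, Real.sq_sqrt hA.le]
      field_simp
    have e2 : Real.sqrt Real.pi / (Real.sqrt A * y) = (Real.sqrt A)⁻¹ * (Real.sqrt Real.pi / y) := by
      field_simp
    rw [e1, e2, mul_pow, inv_pow]
    ring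
  rw [setIntegral_congr_fun measurableSet_Ioi hpt, integral_const_mul] at h
  have e : (∫ y in Set.Ioi (0 : ℝ), hfun d (A / 4) y) =
      Real.sqrt A * (((Real.sqrt A) ^ d)⁻¹ * ∫ y in Set.Ioi (0 : ℝ), hfun d (1 / 4) y) := by
    rw [h, ← mul_assoc, mul_inv_cancel₀ hs.ne', one_mul]
  rw [e, ← mul_assoc]
  congr 1
  have e2 : Real.sqrt A = A ^ ((1 : ℝ) / 2) := Real.sqrt_eq_rpow A
  rw [e2, ← Real.rpow_natCast, ← Real.rpow_mul hA.le, ← Real.rpow_neg hA.le, ← Real.rpow_add hA]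
  congr 1
  unfold gm
  ring
/-! ### the double integral -/

/-- the kernel of the double integral -/
noncomputable def Gk (d : ℕ) (a : ℝ) (x ξ : EuclideanSpace ℝ (Fin d)) (y : ℝ) : ℂ :=
  ((2 / Real.sqrt Real.pi * Real.exp (-(a ^ 2 / 4 / y ^ 2)) : ℝ) : ℂ) *
    Complex.exp (-((y ^ 2 : ℝ) : ℂ) * (‖ξ‖ : ℂ) ^ 2 + Complex.I * ((inner ℝ x ξ : ℝ) : ℂ))

theorem Gk_meas (d : ℕ) (a : ℝ) (x : EuclideanSpace ℝ (Fin d)) :
    Measurable (fun p : EuclideanSpace ℝ (Fin d) × ℝ => Gk d a x p.1 p.2) := by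
  unfold Gk
  have h1 : Measurable (fun p : EuclideanSpace ℝ (Fin d) × ℝ => (inner ℝ x p.1 : ℝ)) :=
    (Continuous.inner continuous_const continuous_fst).measurable
  fun_prop

theorem Gk_norm (d : ℕ) (a : ℝ) (x ξ : EuclideanSpace ℝ (Fin d)) (y : ℝ) :
    ‖Gk d a x ξ y‖ = 2 / Real.sqrt Real.pi * Real.exp (-(a ^ 2 / 4 / y ^ 2)) *
      Real.exp (-(y ^ 2) * ‖ξ‖ ^ 2) := by
  unfold Gk
  rw [norm_mul, Complex.norm_real, Real.norm_eq_abs, abs_of_nonneg (by positivity),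
    Complex.norm_exp]
  congr 2
  have e : -((y ^ 2 : ℝ) : ℂ) * (‖ξ‖ : ℂ) ^ 2 + Complex.I * ((inner ℝ x ξ : ℝ) : ℂ) =
      ((-(y ^ 2) * ‖ξ‖ ^ 2 : ℝ) : ℂ) + Complex.I * ((inner ℝ x ξ : ℝ) : ℂ) := by
    push_cast
    ring
  rw [e, Complex.add_re, Complex.ofReal_re, Complex.re_mul_ofReal]
  simp

theorem Gk_norm_integral (d : ℕ) (a : ℝ) (x : EuclideanSpace ℝ (Fin d)) (y : ℝ) (hy : 0 < y) :
    ∫ ξ, ‖Gk d a x ξ y‖ = 2 / Real.sqrt Real.pi * hfun d (a ^ 2 / 4) y := by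
  simp_rw [Gk_norm]
  rw [integral_const_mul, GaussianFourier.integral_rexp_neg_mul_sq_norm (by positivity),
    finrank_euclideanSpace_fin, rpow_eq_pow d y hy]
  unfold hfun
  ring

theorem Gk_section (d : ℕ) (a : ℝ) (x : EuclideanSpace ℝ (Fin d)) (y : ℝ) (hy : 0 < y) :
    Integrable (fun ξ => Gk d a x ξ y) := by
  unfold Gk
  apply Integrable.const_mul
  exact GaussianFourier.integrable_cexp_neg_mul_sq_norm_add
    (b := ((y ^ 2 : ℝ) : ℂ)) (by rw [Complex.ofReal_re]; positivity) Complex.I x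

theorem Gk_inner (d : ℕ) (a : ℝ) (x : EuclideanSpace ℝ (Fin d)) (y : ℝ) (hy : 0 < y) :
    ∫ ξ, Gk d a x ξ y =
      ((2 / Real.sqrt Real.pi * hfun d ((a ^ 2 + ‖x‖ ^ 2) / 4) y : ℝ) : ℂ) := by
  unfold Gk
  rw [integral_const_mul, GaussianFourier.integral_cexp_neg_mul_sq_norm_add
    (b := ((y ^ 2 : ℝ) : ℂ)) (by rw [Complex.ofReal_re]; positivity) Complex.I x,
    finrank_euclideanSpace_fin]
  have e1 : ((Real.pi : ℂ) / ((y ^ 2 : ℝ) : ℂ)) ^ ((d : ℂ) / 2) =
      (((Real.sqrt Real.pi / y) ^ d : ℝ) : ℂ) := by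
    rw [← rpow_eq_pow d y hy, Complex.ofReal_cpow (by positivity)]
    push_cast
    rfl
  have e2 : Complex.exp (Complex.I ^ 2 * (‖x‖ : ℂ) ^ 2 / (4 * ((y ^ 2 : ℝ) : ℂ))) =
      ((Real.exp (-(‖x‖ ^ 2 / 4 / y ^ 2)) : ℝ) : ℂ) := by
    rw [Complex.ofReal_exp]
    congr 1
    rw [Complex.I_sq]
    push_cast
    have : (y : ℂ) ≠ 0 := by exact_mod_cast hy.ne'
    field_simp
  rw [e1, e2]
  unfold hfun
  have e3 : -((a ^ 2 + ‖x‖ ^ 2) / 4 / y ^ 2) = -(a ^ 2 / 4 / y ^ 2) + -(‖x‖ ^ 2 / 4 / y ^ 2) := by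
    ring
  rw [e3, Real.exp_add]
  push_cast
  ring

theorem Gk_int (d : ℕ) (hd : 2 ≤ d) (a : ℝ) (ha : 0 < a) (x : EuclideanSpace ℝ (Fin d)) :
    Integrable (Function.uncurry (Gk d a x)) ((volume : Measure (EuclideanSpace ℝ (Fin d))).prod
      (volume.restrict (Set.Ioi (0 : ℝ)))) := by
  have hm : AEStronglyMeasurable (Function.uncurry (Gk d a x))
      ((volume : Measure (EuclideanSpace ℝ (Fin d))).prod
      (volume.restrict (Set.Ioi (0 : ℝ)))) := (Gk_meas d a x).aestronglyMeasurable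
  rw [integrable_prod_iff' hm]
  constructor
  · filter_upwards [ae_restrict_mem measurableSet_Ioi] with y hy
    exact Gk_section d a x y hy
  · have h := (hfun_int d hd (a ^ 2 / 4) (by positivity)).const_mul (2 / Real.sqrt Real.pi)
    refine Integrable.congr h ?_
    filter_upwards [ae_restrict_mem measurableSet_Ioi] with y hy
    exact (Gk_norm_integral d a x y hy).symm

theorem Gk_outer (d : ℕ) (a : ℝ) (ha : 0 < a) (x ξ : EuclideanSpace ℝ (Fin d)) (hξ : ξ ≠ 0) :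
    Complex.exp (-((a : ℂ) * (‖ξ‖ : ℂ)) + Complex.I * ((inner ℝ x ξ : ℝ) : ℂ)) *
      ((‖ξ‖ ^ (((0 : ℕ) : ℝ) - 1) : ℝ) : ℂ) = ∫ y in Set.Ioi (0 : ℝ), Gk d a x ξ y := by
  have hr : 0 < ‖ξ‖ := norm_pos_iff.mpr hξ
  have hpt : ∀ y : ℝ, Gk d a x ξ y =
      ((2 / Real.sqrt Real.pi * Real.exp (-(y ^ 2 * ‖ξ‖ ^ 2) - a ^ 2 / (4 * y ^ 2)) : ℝ) : ℂ) *
        Complex.exp (Complex.I * ((inner ℝ x ξ : ℝ) : ℂ)) := by
    intro y
    unfold Gk
    have e1 : -((y ^ 2 : ℝ) : ℂ) * (‖ξ‖ : ℂ) ^ 2 = ((-(y ^ 2 * ‖ξ‖ ^ 2) : ℝ) : ℂ) := by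
      push_cast
      ring
    have e2 : -(y ^ 2 * ‖ξ‖ ^ 2) - a ^ 2 / (4 * y ^ 2) =
        -(a ^ 2 / 4 / y ^ 2) + -(y ^ 2 * ‖ξ‖ ^ 2) := by
      rw [div_div]
      ring
    rw [Complex.exp_add, e1, e2, Real.exp_add, ← Complex.ofReal_exp]
    push_cast
    ring
  simp_rw [hpt]
  rw [integral_mul_const, integral_complex_ofReal, integral_const_mul, subord a ‖ξ‖ ha hr,
    Complex.exp_add]
  have hpi : 0 < Real.sqrt Real.pi := Real.sqrt_pos.mpr Real.pi_pos
  have e3 : ‖ξ‖ ^ (((0 : ℕ) : ℝ) - 1) = ‖ξ‖⁻¹ := by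
    rw [Nat.cast_zero, zero_sub, Real.rpow_neg_one]
  have e4 : 2 / Real.sqrt Real.pi * (Real.sqrt Real.pi / 2 * (Real.exp (-(a * ‖ξ‖)) / ‖ξ‖)) =
      Real.exp (-(a * ‖ξ‖)) * ‖ξ‖⁻¹ := by
    field_simp
  rw [e3, e4]
  push_cast
  ring

theorem U_real (d : ℕ) (hd : 2 ≤ d) : ∃ c : ℝ, 0 < c ∧ ∀ (a : ℝ), 0 < a →
    ∀ x : EuclideanSpace ℝ (Fin d), U d 0 (a : ℂ) x = ((c * (a ^ 2 + ‖x‖ ^ 2) ^ (-gm d) : ℝ) : ℂ) := by
  have hpi : 0 < Real.sqrt Real.pi := Real.sqrt_pos.mpr Real.pi_pos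
  refine ⟨2 / Real.sqrt Real.pi * ∫ y in Set.Ioi (0 : ℝ), hfun d (1 / 4) y, ?_, ?_⟩
  · have := hfun_pos d hd (1 / 4) (by norm_num)
    positivity
  · intro a ha x
    have hA : 0 < a ^ 2 + ‖x‖ ^ 2 := by positivity
    have hne : Nonempty (Fin d) := ⟨⟨0, by omega⟩⟩
    have hae : ∀ᵐ ξ : EuclideanSpace ℝ (Fin d), ξ ≠ 0 := by
      have h0 : (volume : Measure (EuclideanSpace ℝ (Fin d))) {0} = 0 := measure_singleton 0
      exact compl_mem_ae_iff.mpr h0
    have h1 : U d 0 (a : ℂ) x = ∫ ξ : EuclideanSpace ℝ (Fin d),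
        ∫ y in Set.Ioi (0 : ℝ), Gk d a x ξ y := by
      unfold U
      refine integral_congr_ae ?_
      filter_upwards [hae] with ξ hξ
      exact Gk_outer d a ha x ξ hξ
    rw [h1, integral_integral_swap (Gk_int d hd a ha x)]
    have h2 : ∫ y in Set.Ioi (0 : ℝ), ∫ ξ : EuclideanSpace ℝ (Fin d), Gk d a x ξ y =
        ∫ y in Set.Ioi (0 : ℝ),
          ((2 / Real.sqrt Real.pi * hfun d ((a ^ 2 + ‖x‖ ^ 2) / 4) y : ℝ) : ℂ) :=
      setIntegral_congr_fun measurableSet_Ioi fun y hy => Gk_inner d a x y hy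
    rw [h2, integral_complex_ofReal, integral_const_mul, hfun_scale d _ hA]
    congr 1
    ring

end J10781

end Pool.Agent.Cone
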