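import Pool.Agent.ConeOI.Defs

set_option autoImplicit false
open MeasureTheory


namespace Pool.Agent.Cone

namespace J10782


lemma nontriv_U (d : ℕ) (hd : 2 ≤ d) : Nontrivial (EuclideanSpace ℝ (Fin d)) := by
  apply Module.nontrivial_of_finrank_pos (R := ℝ)
  rw [finrank_euclideanSpace_fin]
  omega

lemma base_int_U (d : ℕ) (hd : 2 ≤ d) (s c : ℝ) (hs : -1 ≤ s) (hc : 0 < c) :
    Integrable (fun ξ : EuclideanSpace ℝ (Fin d) => ‖ξ‖ ^ s * Real.exp (-(c * ‖ξ‖))) := by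
  haveI := nontriv_U d hd
  rw [integrable_fun_norm_addHaar (μ := (volume : Measure (EuclideanSpace ℝ (Fin d))))
    (f := fun y : ℝ => y ^ s * Real.exp (-(c * y))), finrank_euclideanSpace_fin]
  have h1 : IntegrableOn (fun y : ℝ => y ^ (((d - 1 : ℕ) : ℝ) + s) *
      Real.exp (-c * y ^ (1:ℝ))) (Set.Ioi 0) := by
    apply integrableOn_rpow_mul_exp_neg_mul_rpow _ (by norm_num) hc
    have : (1:ℝ) ≤ ((d - 1 : ℕ) : ℝ) := by
      exact_mod_cast (by omega : 1 ≤ d - 1)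
    linarith
  refine h1.congr_fun ?_ measurableSet_Ioi
  intro y hy
  have hy0 : (0:ℝ) < y := hy
  show y ^ (((d - 1 : ℕ) : ℝ) + s) * Real.exp (-c * y ^ (1:ℝ)) =
    y ^ (d - 1) • (y ^ s * Real.exp (-(c * y)))
  rw [Real.rpow_add hy0, Real.rpow_natCast, Real.rpow_one, smul_eq_mul, neg_mul, mul_assoc]

lemma norm_exp_U (d : ℕ) (a : ℂ) (x ξ : EuclideanSpace ℝ (Fin d)) :
    ‖Complex.exp (-(a * (‖ξ‖ : ℂ)) + Complex.I * ((inner ℝ x ξ : ℝ) : ℂ))‖ =
      Real.exp (-(a.re * ‖ξ‖)) := by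
  rw [Complex.norm_exp]
  simp

lemma meas_U (d k : ℕ) (a : ℂ) (x : EuclideanSpace ℝ (Fin d)) :
    AEStronglyMeasurable (fun ξ : EuclideanSpace ℝ (Fin d) =>
      Complex.exp (-(a * (‖ξ‖ : ℂ)) + Complex.I * ((inner ℝ x ξ : ℝ) : ℂ)) *
        ((‖ξ‖ ^ ((k : ℝ) - 1) : ℝ) : ℂ)) volume := by
  apply Measurable.aestronglyMeasurable
  apply Measurable.mul
  · apply Continuous.measurable
    fun_prop
  · exact Complex.measurable_ofReal.comp (measurable_norm.pow_const _)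

theorem U_integrable (d k : ℕ) (hd : 2 ≤ d) (a : ℂ) (ha : 0 < a.re) (x : EuclideanSpace ℝ (Fin d)) :
    Integrable (fun ξ : EuclideanSpace ℝ (Fin d) =>
      Complex.exp (-(a * (‖ξ‖ : ℂ)) + Complex.I * ((inner ℝ x ξ : ℝ) : ℂ)) *
        ((‖ξ‖ ^ ((k : ℝ) - 1) : ℝ) : ℂ)) := by
  have hk : (-1:ℝ) ≤ (k:ℝ) - 1 := by
    have : (0:ℝ) ≤ k := Nat.cast_nonneg k
    linarith
  refine (base_int_U d hd ((k:ℝ) - 1) a.re hk ha).mono' (meas_U d k a x) ?_
  refine Filter.Eventually.of_forall fun ξ => ?_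
  rw [norm_mul, norm_exp_U, Complex.norm_real, Real.norm_eq_abs,
    abs_of_nonneg (Real.rpow_nonneg (norm_nonneg _) _), mul_comm]

lemma ae_ne_U (d : ℕ) (hd : 2 ≤ d) : ∀ᵐ ξ : EuclideanSpace ℝ (Fin d), ξ ≠ 0 := by
  haveI := nontriv_U d hd
  exact compl_mem_ae_iff.2 (measure_singleton 0)

lemma rpow_succ_U (k : ℕ) (y : ℝ) (hy : 0 < y) :
    y * y ^ ((k:ℝ) - 1) = y ^ (((k + 1 : ℕ) : ℝ) - 1) := by
  have h : ((k + 1 : ℕ) : ℝ) - 1 = 1 + ((k:ℝ) - 1) := by push_cast; ring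
  rw [h, Real.rpow_add hy, Real.rpow_one]

theorem U_hasDerivAt (d k : ℕ) (hd : 2 ≤ d) (a : ℂ) (ha : 0 < a.re) (x : EuclideanSpace ℝ (Fin d)) :
    HasDerivAt (fun a => U d k a x) (-U d (k + 1) a x) a := by
  have hk : (-1:ℝ) ≤ ((k + 1 : ℕ):ℝ) - 1 := by
    have : (0:ℝ) ≤ ((k + 1 : ℕ):ℝ) := Nat.cast_nonneg _
    linarith
  have hr : 0 < a.re / 2 := by positivity
  have key := hasDerivAt_integral_of_dominated_loc_of_deriv_le
    (μ := (volume : Measure (EuclideanSpace ℝ (Fin d))))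
    (F := fun (b : ℂ) (ξ : EuclideanSpace ℝ (Fin d)) =>
      Complex.exp (-(b * (‖ξ‖ : ℂ)) + Complex.I * ((inner ℝ x ξ : ℝ) : ℂ)) *
        ((‖ξ‖ ^ ((k : ℝ) - 1) : ℝ) : ℂ))
    (F' := fun (b : ℂ) (ξ : EuclideanSpace ℝ (Fin d)) =>
      Complex.exp (-(b * (‖ξ‖ : ℂ)) + Complex.I * ((inner ℝ x ξ : ℝ) : ℂ)) * (-(1 * (‖ξ‖ : ℂ))) *
        ((‖ξ‖ ^ ((k : ℝ) - 1) : ℝ) : ℂ))
    (x₀ := a) (s := Metric.ball a (a.re / 2))
    (bound := fun ξ : EuclideanSpace ℝ (Fin d) =>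
      ‖ξ‖ ^ (((k + 1 : ℕ):ℝ) - 1) * Real.exp (-(a.re / 2 * ‖ξ‖)))
    (Metric.ball_mem_nhds a hr)
    (Filter.Eventually.of_forall fun b => meas_U d k b x)
    (U_integrable d k hd a ha x) (by
      apply Measurable.aestronglyMeasurable
      apply Measurable.mul
      · apply Continuous.measurable
        fun_prop
      · exact Complex.measurable_ofReal.comp (measurable_norm.pow_const _)) (by
      filter_upwards [ae_ne_U d hd] with ξ hξ b hb
      have hξ0 : 0 < ‖ξ‖ := norm_pos_iff.2 hξ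
      have hbre : a.re / 2 ≤ b.re := by
        rw [Metric.mem_ball, dist_eq_norm] at hb
        have h1 := Complex.abs_re_le_norm (b - a)
        rw [Complex.sub_re] at h1
        have h2 := abs_le.1 (h1.trans hb.le)
        linarith [h2.1]
      rw [norm_mul, norm_mul, norm_exp_U, norm_neg, one_mul, Complex.norm_real, Complex.norm_real,
        Real.norm_eq_abs, Real.norm_eq_abs, abs_of_nonneg (norm_nonneg _),
        abs_of_nonneg (Real.rpow_nonneg (norm_nonneg _) _), mul_assoc, rpow_succ_U k _ hξ0,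
        mul_comm]
      apply mul_le_mul_of_nonneg_left _ (Real.rpow_nonneg (norm_nonneg _) _)
      apply Real.exp_le_exp.2
      have : a.re / 2 * ‖ξ‖ ≤ b.re * ‖ξ‖ := mul_le_mul_of_nonneg_right hbre hξ0.le
      linarith)
    (base_int_U d hd _ _ hk hr) (by
      refine Filter.Eventually.of_forall fun ξ b _ => ?_
      have h1 : HasDerivAt (fun b : ℂ => -(b * (‖ξ‖ : ℂ)) +
          Complex.I * ((inner ℝ x ξ : ℝ) : ℂ)) (-(1 * (‖ξ‖ : ℂ))) b :=
        (((hasDerivAt_id b).mul_const _).neg).add_const _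
      exact h1.cexp.mul_const _)
  have h2 := key.2
  have h3 : (∫ ξ : EuclideanSpace ℝ (Fin d),
      Complex.exp (-(a * (‖ξ‖ : ℂ)) + Complex.I * ((inner ℝ x ξ : ℝ) : ℂ)) * (-(1 * (‖ξ‖ : ℂ))) *
        ((‖ξ‖ ^ ((k : ℝ) - 1) : ℝ) : ℂ)) = -U d (k + 1) a x := by
    rw [U, ← integral_neg]
    apply integral_congr_ae
    filter_upwards [ae_ne_U d hd] with ξ hξ
    have hξ0 : 0 < ‖ξ‖ := norm_pos_iff.2 hξ
    rw [← rpow_succ_U k _ hξ0]
    push_cast
    ring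
  rw [h3] at h2
  exact h2

end J10782

end Pool.Agent.Cone
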