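import Pool.Agent.ConeOI.Defs

set_option autoImplicit false
open MeasureTheory


namespace Pool.Agent.Cone

namespace J10783

theorem U_complex_slit (r : ℝ) (a : ℂ) (ha : 0 < a.re) :
    a ^ 2 + ((r ^ 2 : ℝ) : ℂ) ∈ Complex.slitPlane := by
  rw [Complex.mem_slitPlane_iff]
  have h1 : (a ^ 2 + ((r ^ 2 : ℝ) : ℂ)).re = a.re ^ 2 - a.im ^ 2 + r ^ 2 := by
    rw [sq, Complex.add_re, Complex.mul_re, Complex.ofReal_re]; ring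
  have h2 : (a ^ 2 + ((r ^ 2 : ℝ) : ℂ)).im = 2 * (a.re * a.im) := by
    rw [sq, Complex.add_im, Complex.mul_im, Complex.ofReal_im]; ring
  rw [h1, h2]
  by_cases h : a.im = 0
  · left
    rw [h]
    have := sq_nonneg r
    have := pow_pos ha 2
    linarith
  · right
    exact mul_ne_zero two_ne_zero (mul_ne_zero ha.ne' h)

theorem U_complex_deriv (r : ℝ) (a : ℂ) (ha : 0 < a.re) (s : ℂ) :
    HasDerivAt (fun a : ℂ => (a ^ 2 + ((r ^ 2 : ℝ) : ℂ)) ^ s)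
      (s * (a ^ 2 + ((r ^ 2 : ℝ) : ℂ)) ^ (s - 1) * (2 * a)) a := by
  have h1 : HasDerivAt (fun a : ℂ => a ^ 2 + ((r ^ 2 : ℝ) : ℂ)) (2 * a) a := by
    have := (hasDerivAt_pow 2 a).add_const (((r ^ 2 : ℝ) : ℂ))
    simpa using this
  exact h1.cpow_const (U_complex_slit r a ha)

theorem U_complex (d : ℕ) (hd : 2 ≤ d) (c : ℝ) (hc : 0 < c)
    (U_real : ∀ (a : ℝ), 0 < a →
      ∀ x : EuclideanSpace ℝ (Fin d), U d 0 (a : ℂ) x = ((c * (a ^ 2 + ‖x‖ ^ 2) ^ (-gm d) : ℝ) : ℂ))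
    (U_hasDerivAt : ∀ (k : ℕ) (a : ℂ), 0 < a.re → ∀ x : EuclideanSpace ℝ (Fin d),
      HasDerivAt (fun a => U d k a x) (-U d (k + 1) a x) a)
    (a : ℂ) (ha : 0 < a.re) (x : EuclideanSpace ℝ (Fin d)) :
    a ^ 2 + ((‖x‖ ^ 2 : ℝ) : ℂ) ∈ Complex.slitPlane ∧
    U d 0 a x = (c : ℂ) * (a ^ 2 + ((‖x‖ ^ 2 : ℝ) : ℂ)) ^ (((-gm d : ℝ)) : ℂ) ∧
    U d 2 a x = U d 0 a x *
      (4 * (gm d : ℂ) * ((gm d : ℂ) + 1) * a ^ 2 / (a ^ 2 + ((‖x‖ ^ 2 : ℝ) : ℂ)) ^ 2 -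
        2 * (gm d : ℂ) / (a ^ 2 + ((‖x‖ ^ 2 : ℝ) : ℂ))) := by
  set H : Set ℂ := {z : ℂ | 0 < z.re} with hH
  have hHo : IsOpen H := isOpen_lt continuous_const Complex.continuous_re
  have hHp : IsPreconnected H := (convex_halfSpace_re_gt 0).isPreconnected
  have hderiv0 : ∀ b ∈ H, HasDerivAt (fun b : ℂ => (c : ℂ) * (b ^ 2 + ((‖x‖ ^ 2 : ℝ) : ℂ)) ^ (((-gm d : ℝ)) : ℂ))
      ((c : ℂ) * ((((-gm d : ℝ)) : ℂ) * (b ^ 2 + ((‖x‖ ^ 2 : ℝ) : ℂ)) ^ ((((-gm d : ℝ)) : ℂ) - 1) * (2 * b))) b :=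
    fun b hb => (U_complex_deriv ‖x‖ b hb _).const_mul _
  have hEq : Set.EqOn (fun b => U d 0 b x)
      (fun b : ℂ => (c : ℂ) * (b ^ 2 + ((‖x‖ ^ 2 : ℝ) : ℂ)) ^ (((-gm d : ℝ)) : ℂ)) H := by
    refine AnalyticOnNhd.eqOn_of_preconnected_of_frequently_eq (z₀ := 1) ?_ ?_ hHp ?_ ?_
    · refine DifferentiableOn.analyticOnNhd (fun b hb => ?_) hHo
      exact (U_hasDerivAt 0 b hb x).differentiableAt.differentiableWithinAt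
    · refine DifferentiableOn.analyticOnNhd (fun b hb => ?_) hHo
      exact (hderiv0 b hb).differentiableAt.differentiableWithinAt
    · simp [hH]
    · have ht : Filter.Tendsto (fun t : ℝ => (t : ℂ)) (nhdsWithin (1 : ℝ) {1}ᶜ)
          (nhdsWithin (1 : ℂ) {1}ᶜ) := by
        refine tendsto_nhdsWithin_iff.2 ⟨?_, ?_⟩
        · have h1 : Filter.Tendsto (fun t : ℝ => (t : ℂ)) (nhds 1) (nhds ((1 : ℝ) : ℂ)) :=
            Complex.continuous_ofReal.tendsto 1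
          rw [Complex.ofReal_one] at h1
          exact tendsto_nhdsWithin_of_tendsto_nhds h1
        · filter_upwards [self_mem_nhdsWithin] with t ht h
          apply ht
          have h' : ((t : ℝ) : ℂ) = 1 := h
          exact_mod_cast h'
      refine ht.frequently (Filter.Eventually.frequently ?_)
      have hpos : ∀ᶠ t : ℝ in nhdsWithin (1 : ℝ) {1}ᶜ, 0 < t :=
        nhdsWithin_le_nhds (Ioi_mem_nhds one_pos)
      filter_upwards [hpos] with t ht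
      beta_reduce
      rw [U_real t ht x]
      have h2 : (0 : ℝ) ≤ t ^ 2 + ‖x‖ ^ 2 := by positivity
      rw [Complex.ofReal_mul, Complex.ofReal_cpow h2]
      push_cast
      rfl
  have hd1 : ∀ b ∈ H, U d 1 b x = (c : ℂ) * (2 * (gm d : ℂ)) *
      (b * (b ^ 2 + ((‖x‖ ^ 2 : ℝ) : ℂ)) ^ ((((-gm d : ℝ)) : ℂ) - 1)) := by
    intro b hb
    have h1 := U_hasDerivAt 0 b hb x
    have h2 := (hderiv0 b hb).congr_of_eventuallyEq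
      (Filter.eventuallyEq_of_mem (hHo.mem_nhds hb) hEq)
    have h3 := h1.unique h2
    have h4 : U d (0 + 1) b x = -(-U d (0 + 1) b x) := (neg_neg _).symm
    show U d (0 + 1) b x = _
    rw [h4, h3]
    push_cast
    ring
  have hw := U_complex_slit ‖x‖ a ha
  have hw0 : a ^ 2 + ((‖x‖ ^ 2 : ℝ) : ℂ) ≠ 0 := Complex.slitPlane_ne_zero hw
  refine ⟨hw, hEq ha, ?_⟩
  have h1 := U_hasDerivAt 1 a ha x
  have h2 : HasDerivAt (fun b => U d 1 b x) _ a :=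
    (((hasDerivAt_id a).mul (U_complex_deriv ‖x‖ a ha ((((-gm d : ℝ)) : ℂ) - 1))).const_mul
      ((c : ℂ) * (2 * (gm d : ℂ)))).congr_of_eventuallyEq
      (Filter.eventuallyEq_of_mem (hHo.mem_nhds ha) hd1)
  have h3 := h1.unique h2
  have h4 : U d (1 + 1) a x = -(-U d (1 + 1) a x) := (neg_neg _).symm
  have h5 : U d 0 a x = (c : ℂ) * (a ^ 2 + ((‖x‖ ^ 2 : ℝ) : ℂ)) ^ (((-gm d : ℝ)) : ℂ) := hEq ha
  show U d (1 + 1) a x = _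
  rw [h4, h3, h5]
  have e1 : (a ^ 2 + ((‖x‖ ^ 2 : ℝ) : ℂ)) ^ ((((-gm d : ℝ)) : ℂ) - 1) =
      (a ^ 2 + ((‖x‖ ^ 2 : ℝ) : ℂ)) ^ (((-gm d : ℝ)) : ℂ) / (a ^ 2 + ((‖x‖ ^ 2 : ℝ) : ℂ)) := by
    rw [Complex.cpow_sub _ _ hw0, Complex.cpow_one]
  have e2 : (a ^ 2 + ((‖x‖ ^ 2 : ℝ) : ℂ)) ^ ((((-gm d : ℝ)) : ℂ) - 1 - 1) =
      (a ^ 2 + ((‖x‖ ^ 2 : ℝ) : ℂ)) ^ (((-gm d : ℝ)) : ℂ) / (a ^ 2 + ((‖x‖ ^ 2 : ℝ) : ℂ)) ^ 2 := by
    rw [Complex.cpow_sub _ _ hw0, Complex.cpow_one, e1, div_div, pow_two (a ^ 2 + ((‖x‖ ^ 2 : ℝ) : ℂ))]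
  simp only [id]
  rw [e2, e1]
  generalize (a ^ 2 + ((‖x‖ ^ 2 : ℝ) : ℂ)) ^ (((-gm d : ℝ)) : ℂ) = Y
  generalize a ^ 2 + ((‖x‖ ^ 2 : ℝ) : ℂ) = w at hw0 ⊢
  push_cast
  field_simp
  ring

end J10783

end Pool.Agent.Cone
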