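import Pool.Agent.ConeOI.Defs

set_option autoImplicit false
open MeasureTheory


namespace Pool.Agent.Cone

namespace J10784

/-- real part of the quotient `v/u` and modulus of `u` in null coordinates -/
theorem w_formulas (γ t r : ℝ) (w : ℂ) (hw : w = (1 - Complex.I * (t : ℂ)) ^ 2 + ((r ^ 2 : ℝ) : ℂ)) :
    ‖w‖ ^ 2 = (1 + (t + r) ^ 2) * (1 + (t - r) ^ 2) ∧ w ≠ 0 ∧
    (4 * (γ : ℂ) * ((γ : ℂ) + 1) * (1 - Complex.I * (t : ℂ)) ^ 2 / w ^ 2 - 2 * (γ : ℂ) / w).re =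
      γ * (γ + 1) * (2 * ca (t + r) ^ 2 - ca (t + r) + (2 * ca (t - r) ^ 2 - ca (t - r))) +
        2 * γ ^ 2 * (ca (t + r) * ca (t - r) * (1 - (t + r) * (t - r))) := by
  have hnorm : ‖w‖ ^ 2 = (1 + (t + r) ^ 2) * (1 + (t - r) ^ 2) := by
    have hw2 : w = ((1 - t ^ 2 + r ^ 2 : ℝ) : ℂ) + ((-(2 * t) : ℝ) : ℂ) * Complex.I := by
      rw [hw]
      push_cast
      linear_combination ((t : ℂ) ^ 2) * Complex.I_sq
    rw [← Complex.normSq_eq_norm_sq, hw2, Complex.normSq_add_mul_I]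
    ring
  have hpos : 0 < (1 + (t + r) ^ 2) * (1 + (t - r) ^ 2) := by positivity
  have hw0 : w ≠ 0 := by
    intro h0
    rw [h0, norm_zero] at hnorm
    norm_num at hnorm
    rcases hnorm with h | h
    · nlinarith [sq_nonneg (t + r)]
    · nlinarith [sq_nonneg (t - r)]
  refine ⟨hnorm, hw0, ?_⟩
  -- the two null factors
  obtain ⟨A, hA⟩ : ∃ A : ℂ, A = 1 - Complex.I * ((t + r : ℝ) : ℂ) := ⟨_, rfl⟩
  obtain ⟨B, hB⟩ : ∃ B : ℂ, B = 1 - Complex.I * ((t - r : ℝ) : ℂ) := ⟨_, rfl⟩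
  have hwAB : w = A * B := by
    rw [hw, hA, hB]
    push_cast
    linear_combination (((r : ℂ)) ^ 2) * Complex.I_sq
  have hsum : 1 - Complex.I * (t : ℂ) = (A + B) / 2 := by
    rw [hA, hB]
    push_cast
    ring
  have hA0 : A ≠ 0 := by
    intro h0
    rw [h0, zero_mul] at hwAB
    exact hw0 hwAB
  have hB0 : B ≠ 0 := by
    intro h0
    rw [h0, mul_zero] at hwAB
    exact hw0 hwAB
  have hAinv : A⁻¹ = ((ca (t + r) : ℝ) : ℂ) * (1 + Complex.I * ((t + r : ℝ) : ℂ)) := by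
    apply inv_eq_of_mul_eq_one_right
    rw [hA]
    have h1 : ((ca (t + r) : ℝ) : ℂ) * (((1 + (t + r) ^ 2 : ℝ)) : ℂ) = 1 := by
      rw [← Complex.ofReal_mul, ← Complex.ofReal_one]
      congr 1
      unfold ca
      have : (1 + (t + r) ^ 2 : ℝ) ≠ 0 := by positivity
      field_simp
    push_cast at h1 ⊢
    linear_combination h1 - ((ca (t + r) : ℝ) : ℂ) * ((t : ℂ) + r) ^ 2 * Complex.I_sq
  have hBinv : B⁻¹ = ((ca (t - r) : ℝ) : ℂ) * (1 + Complex.I * ((t - r : ℝ) : ℂ)) := by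
    apply inv_eq_of_mul_eq_one_right
    rw [hB]
    have h1 : ((ca (t - r) : ℝ) : ℂ) * (((1 + (t - r) ^ 2 : ℝ)) : ℂ) = 1 := by
      rw [← Complex.ofReal_mul, ← Complex.ofReal_one]
      congr 1
      unfold ca
      have : (1 + (t - r) ^ 2 : ℝ) ≠ 0 := by positivity
      field_simp
    push_cast at h1 ⊢
    linear_combination h1 - ((ca (t - r) : ℝ) : ℂ) * ((t : ℂ) - r) ^ 2 * Complex.I_sq
  have hexp : 4 * (γ : ℂ) * ((γ : ℂ) + 1) * (1 - Complex.I * (t : ℂ)) ^ 2 / w ^ 2 - 2 * (γ : ℂ) / w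
      = (γ : ℂ) * ((γ : ℂ) + 1) * (A⁻¹ ^ 2 + B⁻¹ ^ 2) + 2 * (γ : ℂ) ^ 2 * (A⁻¹ * B⁻¹) := by
    rw [hsum, hwAB]
    field_simp
    ring
  have hca1 : ca (t + r) ^ 2 * (1 - (t + r) ^ 2) = 2 * ca (t + r) ^ 2 - ca (t + r) := by
    unfold ca
    have : (1 + (t + r) ^ 2 : ℝ) ≠ 0 := by positivity
    field_simp
    ring
  have hca2 : ca (t - r) ^ 2 * (1 - (t - r) ^ 2) = 2 * ca (t - r) ^ 2 - ca (t - r) := by
    unfold ca
    have : (1 + (t - r) ^ 2 : ℝ) ≠ 0 := by positivity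
    field_simp
    ring
  rw [hexp, hAinv, hBinv, ← hca1, ← hca2]
  generalize ca (t + r) = x
  generalize ca (t - r) = y
  generalize t + r = α
  generalize t - r = β
  have hfin : (γ : ℂ) * ((γ : ℂ) + 1) * (((x : ℂ) * (1 + Complex.I * (α : ℂ))) ^ 2
      + ((y : ℂ) * (1 + Complex.I * (β : ℂ))) ^ 2)
      + 2 * (γ : ℂ) ^ 2 * ((x : ℂ) * (1 + Complex.I * (α : ℂ)) * ((y : ℂ) * (1 + Complex.I * (β : ℂ))))
      = ((γ * (γ + 1) * (x ^ 2 * (1 - α ^ 2) + y ^ 2 * (1 - β ^ 2))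
        + 2 * γ ^ 2 * (x * y * (1 - α * β)) : ℝ) : ℂ)
      + ((γ * (γ + 1) * (2 * x ^ 2 * α + 2 * y ^ 2 * β)
        + 2 * γ ^ 2 * (x * y * (α + β)) : ℝ) : ℂ) * Complex.I := by
    push_cast
    linear_combination ((γ : ℂ) * ((γ : ℂ) + 1) * ((x : ℂ) ^ 2 * (α : ℂ) ^ 2 + (y : ℂ) ^ 2 * (β : ℂ) ^ 2)
      + 2 * (γ : ℂ) ^ 2 * ((x : ℂ) * (y : ℂ) * (α : ℂ) * (β : ℂ))) * Complex.I_sq
  rw [hfin, Complex.add_re, Complex.ofReal_re, Complex.re_ofReal_mul, Complex.I_re, mul_zero, add_zero]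

/-- convexity of `z ↦ ‖z‖^p` -/
theorem conv (p : ℝ) (hp : 1 ≤ p) (u q : ℂ) (ε : ℝ) :
    ‖u‖ ^ p * (1 + p * ε * q.re) ≤ ‖u + (ε : ℂ) * (u * q)‖ ^ p := by
  have h1 : u + (ε : ℂ) * (u * q) = u * (1 + (ε : ℂ) * q) := by ring
  rw [h1, norm_mul, Real.mul_rpow (norm_nonneg _) (norm_nonneg _)]
  apply mul_le_mul_of_nonneg_left _ (Real.rpow_nonneg (norm_nonneg _) _)
  have h2 : 1 + ε * q.re ≤ ‖1 + (ε : ℂ) * q‖ := by
    have h3 := Complex.re_le_norm (1 + (ε : ℂ) * q)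
    simpa using h3
  have h0 : 0 ≤ ‖1 + (ε : ℂ) * q‖ ^ p := Real.rpow_nonneg (norm_nonneg _) _
  rcases le_or_gt (-1) (ε * q.re) with h | h
  · calc 1 + p * ε * q.re = 1 + p * (ε * q.re) := by ring
      _ ≤ (1 + ε * q.re) ^ p := one_add_mul_self_le_rpow_one_add h hp
      _ ≤ ‖1 + (ε : ℂ) * q‖ ^ p := Real.rpow_le_rpow (by linarith) h2 (by linarith)
  · have h4 : p * (ε * q.re) ≤ 1 * (ε * q.re) := mul_le_mul_of_nonpos_right hp (by linarith)
    calc 1 + p * ε * q.re = 1 + p * (ε * q.re) := by ring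
      _ ≤ 0 := by linarith
      _ ≤ _ := h0

theorem moments_radial (d : ℕ) (hd : 2 ≤ d) (e : ℝ) (y : ℝ) (hy : y ∈ Set.Ioi (0 : ℝ)) :
    y ^ (d - 1) * (y ^ e * Real.exp (-2 * y)) = y ^ (e + d - 1) * Real.exp (-(2 * y)) := by
  have hy' : 0 < y := hy
  rw [← mul_assoc, ← Real.rpow_natCast, ← Real.rpow_add hy', neg_mul]
  congr 2
  rw [Nat.cast_sub (by omega)]
  push_cast
  ring

theorem moments_integral (d : ℕ) (hd : 2 ≤ d) (e : ℝ) (he : -(d : ℝ) < e) :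
    Integrable (fun ξ : EuclideanSpace ℝ (Fin d) => ‖ξ‖ ^ e * Real.exp (-2 * ‖ξ‖)) ∧
    (∫ ξ : EuclideanSpace ℝ (Fin d), ‖ξ‖ ^ e * Real.exp (-2 * ‖ξ‖)) =
      (d : ℝ) * (volume.real (Metric.ball (0 : EuclideanSpace ℝ (Fin d)) 1) *
        ((1 / 2) ^ (e + d) * Real.Gamma (e + d))) := by
  haveI : Nonempty (Fin d) := ⟨⟨0, by omega⟩⟩
  haveI : Nontrivial (EuclideanSpace ℝ (Fin d)) := by infer_instance
  have hfin : Module.finrank ℝ (EuclideanSpace ℝ (Fin d)) = d := by simp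
  have hint : IntegrableOn (fun y : ℝ => y ^ (e + d - 1) * Real.exp (-(2 * y))) (Set.Ioi 0) := by
    have h1 := integrableOn_rpow_mul_exp_neg_mul_rpow (p := 1) (s := e + d - 1) (b := 2)
      (by linarith) one_pos two_pos
    refine h1.congr_fun ?_ measurableSet_Ioi
    intro y _
    simp only [Real.rpow_one, neg_mul]
  constructor
  · have h2 := (integrable_fun_norm_addHaar (volume : Measure (EuclideanSpace ℝ (Fin d)))
      (f := fun y : ℝ => y ^ e * Real.exp (-2 * y))).2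
    apply h2
    rw [hfin]
    refine hint.congr_fun ?_ measurableSet_Ioi
    intro y hy
    show y ^ (e + d - 1) * Real.exp (-(2 * y)) = y ^ (d - 1) * (y ^ e * Real.exp (-2 * y))
    exact (moments_radial d hd e y hy).symm
  · have h3 := integral_fun_norm_addHaar (volume : Measure (EuclideanSpace ℝ (Fin d)))
      (fun y : ℝ => y ^ e * Real.exp (-2 * y))
    rw [hfin] at h3
    rw [h3, nsmul_eq_mul, smul_eq_mul]
    congr 2
    rw [← Real.integral_rpow_mul_exp_neg_mul_Ioi (by linarith : 0 < e + d) two_pos]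
    apply setIntegral_congr_fun measurableSet_Ioi
    intro y hy
    exact moments_radial d hd e y hy

/-- Gamma moments -/
theorem moments (d : ℕ) (hd : 2 ≤ d) (e : ℝ) (he : -(d : ℝ) < e) :
    Integrable (fun ξ : EuclideanSpace ℝ (Fin d) => ‖ξ‖ ^ e * Real.exp (-2 * ‖ξ‖)) ∧
    0 < (∫ ξ : EuclideanSpace ℝ (Fin d), ‖ξ‖ ^ e * Real.exp (-2 * ‖ξ‖)) ∧
    (∫ ξ : EuclideanSpace ℝ (Fin d), ‖ξ‖ ^ (e + 2) * Real.exp (-2 * ‖ξ‖)) =
      (e + d + 1) * (e + d) / 4 *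
        ∫ ξ : EuclideanSpace ℝ (Fin d), ‖ξ‖ ^ e * Real.exp (-2 * ‖ξ‖) := by
  have hed : 0 < e + d := by linarith
  obtain ⟨h1, h2⟩ := moments_integral d hd e he
  obtain ⟨-, h3⟩ := moments_integral d hd (e + 2) (by linarith)
  have hball : 0 < volume.real (Metric.ball (0 : EuclideanSpace ℝ (Fin d)) 1) :=
    ENNReal.toReal_pos (Metric.measure_ball_pos volume 0 one_pos).ne' measure_ball_lt_top.ne
  have hd0 : (0 : ℝ) < d := by
    have : 0 < d := by omega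
    exact_mod_cast this
  refine ⟨h1, ?_, ?_⟩
  · rw [h2]
    have := Real.Gamma_pos_of_pos hed
    positivity
  · rw [h3, h2]
    have e1 : e + 2 + d = (e + d + 1) + 1 := by ring
    have e2 : Real.Gamma (e + 2 + d) = (e + d + 1) * ((e + d) * Real.Gamma (e + d)) := by
      rw [e1, Real.Gamma_add_one (by linarith), Real.Gamma_add_one hed.ne']
    have e3 : ((1 : ℝ) / 2) ^ (e + 2 + d) = (1 / 2) ^ (e + d) * (1 / 4) := by
      have e4 : e + 2 + (d : ℝ) = (e + d) + ((2 : ℕ) : ℝ) := by push_cast; ring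
      rw [e4, Real.rpow_add (by norm_num), Real.rpow_natCast]
      norm_num
    rw [e2, e3]
    ring

end J10784

end Pool.Agent.Cone
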