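import Pool.Agent.ConeOI.Defs

set_option autoImplicit false
open MeasureTheory


namespace Pool.Agent.Cone

namespace J10785

/-- the half-plane measure -/
noncomputable def o5M : Measure (ℝ × ℝ) := (volume : Measure ℝ).prod (volume.restrict (Set.Ioi 0))

/-- the basic weight -/
noncomputable def o5W (t r : ℝ) : ℝ := (1 + (t + r) ^ 2) * (1 + (t - r) ^ 2)

theorem o5W_pos (t r : ℝ) : 0 < o5W t r := by unfold o5W; positivity

theorem o5W_ge (t r : ℝ) : 1 + 2 * t ^ 2 + 2 * r ^ 2 ≤ o5W t r := by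
  unfold o5W
  nlinarith [mul_nonneg (sq_nonneg (t + r)) (sq_nonneg (t - r))]

theorem o5W_one (t r : ℝ) : 1 ≤ o5W t r := by
  have := o5W_ge t r
  nlinarith [sq_nonneg t, sq_nonneg r]

theorem o5_abs_le (t r : ℝ) : |t| ≤ √(o5W t r) ∧ |r| ≤ √(o5W t r) := by
  have h := o5W_ge t r
  constructor
  · apply Real.abs_le_sqrt
    nlinarith [sq_nonneg t, sq_nonneg r]
  · apply Real.abs_le_sqrt
    nlinarith [sq_nonneg t, sq_nonneg r]

theorem o5_rho (κ : ℝ) (D : ℕ) (t r : ℝ) : rho κ D t r = o5W t r ^ (-κ) * r ^ D := rfl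

theorem o5_bound (κ : ℝ) (D : ℕ) (t r : ℝ) :
    (1 + |t| + |r|) * |rho κ D t r| ≤ 3 * o5W t r ^ (-(κ - ((D : ℝ) + 1) / 2)) := by
  obtain ⟨h1, h2⟩ := o5_abs_le t r
  have hW := o5W_pos t r
  have hs1 : 1 ≤ √(o5W t r) := by
    rw [← Real.sqrt_one]
    exact Real.sqrt_le_sqrt (o5W_one t r)
  rw [o5_rho, abs_mul, abs_of_pos (Real.rpow_pos_of_pos hW _), abs_pow]
  have hD : |r| ^ D ≤ (√(o5W t r)) ^ D := pow_le_pow_left₀ (abs_nonneg _) h2 _
  have h3 : 1 + |t| + |r| ≤ 3 * √(o5W t r) := by linarith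
  calc (1 + |t| + |r|) * (o5W t r ^ (-κ) * |r| ^ D)
      ≤ (3 * √(o5W t r)) * (o5W t r ^ (-κ) * (√(o5W t r)) ^ D) := by
        apply mul_le_mul h3 _ (by positivity) (by positivity)
        exact mul_le_mul_of_nonneg_left hD (by positivity)
    _ = 3 * (o5W t r ^ (1 / 2 : ℝ) * (o5W t r ^ (-κ) * (o5W t r ^ (1 / 2 : ℝ)) ^ (D : ℝ))) := by
        rw [Real.sqrt_eq_rpow, Real.rpow_natCast]
        ring
    _ = 3 * o5W t r ^ (-(κ - ((D : ℝ) + 1) / 2)) := by
        rw [← Real.rpow_mul hW.le, ← Real.rpow_add hW, ← Real.rpow_add hW]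
        congr 2
        ring

theorem o5_W_cont : Continuous (fun q : ℝ × ℝ => o5W q.1 q.2) := by
  unfold o5W
  fun_prop

theorem o5_Wpow_cont (p : ℝ) : Continuous (fun q : ℝ × ℝ => o5W q.1 q.2 ^ p) :=
  o5_W_cont.rpow_const fun q => Or.inl (o5W_pos _ _).ne'

theorem o5_rho_cont (κ : ℝ) (D : ℕ) : Continuous (fun q : ℝ × ℝ => rho κ D q.1 q.2) := by
  simp only [o5_rho]
  exact (o5_Wpow_cont _).mul (by fun_prop)

theorem o5_one_dim (s : ℝ) (hs : 1 < 2 * s) :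
    Integrable (fun y : ℝ => (1 + y ^ 2) ^ (-s)) (volume : Measure ℝ) := by
  have h := integrable_rpow_neg_one_add_norm_sq (E := ℝ) (μ := volume) (r := 2 * s) (by simpa using hs)
  refine h.congr (Filter.Eventually.of_forall fun y => ?_)
  show (1 + ‖y‖ ^ 2) ^ (-(2 * s) / 2) = (1 + y ^ 2) ^ (-s)
  rw [Real.norm_eq_abs, sq_abs]
  congr 1
  ring

theorem o5_W_integrable_full (s : ℝ) (hs : 1 < 2 * s) :
    Integrable (fun q : ℝ × ℝ => o5W q.1 q.2 ^ (-s)) ((volume : Measure ℝ).prod volume) := by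
  have h1 : Integrable (fun q : ℝ × ℝ => (1 + q.1 ^ 2) ^ (-s) * (1 + q.2 ^ 2) ^ (-s))
      ((volume : Measure ℝ).prod volume) := (o5_one_dim s hs).mul_prod (o5_one_dim s hs)
  let L : (ℝ × ℝ) ≃ₗ[ℝ] (ℝ × ℝ) :=
    { toFun := fun q => (q.1 + q.2, q.1 - q.2)
      map_add' := fun a b => by ext <;> simp <;> ring
      map_smul' := fun c a => by ext <;> simp <;> ring
      invFun := fun q => ((q.1 + q.2) / 2, (q.1 - q.2) / 2)
      left_inv := fun a => by ext <;> simp <;> ring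
      right_inv := fun a => by ext <;> simp <;> ring }
  have hdet : LinearMap.det (L : (ℝ × ℝ) →ₗ[ℝ] (ℝ × ℝ)) ≠ 0 := (LinearEquiv.isUnit_det' L).ne_zero
  have h2 := Measure.map_linearMap_addHaar_eq_smul_addHaar
    ((volume : Measure ℝ).prod volume) hdet
  have h3 : Integrable (fun q : ℝ × ℝ => (1 + q.1 ^ 2) ^ (-s) * (1 + q.2 ^ 2) ^ (-s))
      (Measure.map (L : (ℝ × ℝ) →ₗ[ℝ] (ℝ × ℝ)) ((volume : Measure ℝ).prod volume)) := by
    rw [h2]
    exact h1.smul_measure ENNReal.ofReal_ne_top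
  have hLm : Measurable (L : (ℝ × ℝ) →ₗ[ℝ] (ℝ × ℝ)) := by
    show Measurable (fun q : ℝ × ℝ => (q.1 + q.2, q.1 - q.2))
    fun_prop
  have h4 := h3.comp_measurable hLm
  refine h4.congr (Filter.Eventually.of_forall fun q => ?_)
  show (1 + (q.1 + q.2) ^ 2) ^ (-s) * (1 + (q.1 - q.2) ^ 2) ^ (-s) = o5W q.1 q.2 ^ (-s)
  unfold o5W
  rw [Real.mul_rpow (by positivity) (by positivity)]

theorem o5M_eq : o5M = (((volume : Measure ℝ).prod volume).restrict (Set.univ ×ˢ Set.Ioi 0)) := by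
  unfold o5M
  rw [← Measure.prod_restrict, Measure.restrict_univ]

theorem o5_W_integrable (s : ℝ) (hs : 1 < 2 * s) :
    Integrable (fun q : ℝ × ℝ => o5W q.1 q.2 ^ (-s)) o5M := by
  rw [o5M_eq]
  exact (o5_W_integrable_full s hs).integrableOn

theorem o5_dom (κ : ℝ) (D : ℕ) (hκ : (D : ℝ) + 2 < 2 * κ) (G : ℝ × ℝ → ℝ) (K : ℝ)
    (hG : AEStronglyMeasurable G o5M)
    (hb : ∀ q : ℝ × ℝ, |G q| ≤ K * ((1 + |q.1| + |q.2|) * |rho κ D q.1 q.2|)) (hK : 0 ≤ K) :
    Integrable G o5M := by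
  have h1 := (o5_W_integrable (κ - ((D : ℝ) + 1) / 2) (by linarith)).const_mul (K * 3)
  refine h1.mono' hG (Filter.Eventually.of_forall fun q => ?_)
  rw [Real.norm_eq_abs]
  refine (hb q).trans ?_
  rw [mul_assoc]
  exact mul_le_mul_of_nonneg_left (o5_bound κ D q.1 q.2) hK

theorem o5_lim (κ : ℝ) (D : ℕ) (hκ : (D : ℝ) + 2 < 2 * κ) {l : Filter ℝ} (t r : ℝ → ℝ)
    (hl : Filter.Tendsto (fun x => 1 + 2 * (t x) ^ 2 + 2 * (r x) ^ 2) l Filter.atTop)
    (G : ℝ → ℝ) (K : ℝ) (hK : 0 ≤ K)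
    (hb : ∀ x, |G x| ≤ K * ((1 + |t x| + |r x|) * |rho κ D (t x) (r x)|)) :
    Filter.Tendsto G l (nhds 0) := by
  have h1 : Filter.Tendsto (fun x => o5W (t x) (r x)) l Filter.atTop :=
    Filter.tendsto_atTop_mono (fun x => o5W_ge _ _) hl
  have h2 : Filter.Tendsto (fun x => o5W (t x) (r x) ^ (-(κ - ((D : ℝ) + 1) / 2))) l (nhds 0) :=
    (tendsto_rpow_neg_atTop (by linarith)).comp h1
  have h3 : Filter.Tendsto (fun x => K * 3 * o5W (t x) (r x) ^ (-(κ - ((D : ℝ) + 1) / 2))) l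
      (nhds 0) := by simpa using h2.const_mul (K * 3)
  refine squeeze_zero_norm (fun x => ?_) h3
  rw [Real.norm_eq_abs]
  refine (hb x).trans ?_
  rw [mul_assoc]
  exact mul_le_mul_of_nonneg_left (o5_bound κ D (t x) (r x)) hK

theorem rho_integrable (κ : ℝ) (D : ℕ) (hD : 1 ≤ D) (hκ : (D : ℝ) + 2 < 2 * κ) :
    Integrable (fun q : ℝ × ℝ => rho κ D q.1 q.2)
      ((volume : Measure ℝ).prod (volume.restrict (Set.Ioi 0))) ∧
    0 < ∫ q : ℝ × ℝ, rho κ D q.1 q.2 ∂((volume : Measure ℝ).prod (volume.restrict (Set.Ioi 0))) := by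
  have _ := hD
  have hint : Integrable (fun q : ℝ × ℝ => rho κ D q.1 q.2) o5M := by
    apply o5_dom κ D hκ _ 1 (o5_rho_cont κ D).aestronglyMeasurable _ zero_le_one
    intro q
    rw [one_mul]
    have h1 : 1 ≤ 1 + |q.1| + |q.2| := by
      have := abs_nonneg q.1
      have := abs_nonneg q.2
      linarith
    nlinarith [abs_nonneg (rho κ D q.1 q.2)]
  refine ⟨hint, ?_⟩
  have hae : ∀ᵐ q : ℝ × ℝ ∂o5M, q ∈ (Set.univ ×ˢ Set.Ioi 0 : Set (ℝ × ℝ)) := by
    rw [o5M_eq]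
    exact ae_restrict_mem (MeasurableSet.univ.prod measurableSet_Ioi)
  have hnn : 0 ≤ᵐ[o5M] (fun q : ℝ × ℝ => rho κ D q.1 q.2) := by
    filter_upwards [hae] with q hq
    have h2 : (0 : ℝ) < q.2 := hq.2
    show 0 ≤ rho κ D q.1 q.2
    rw [o5_rho]
    have := Real.rpow_pos_of_pos (o5W_pos q.1 q.2) (-κ)
    positivity
  show 0 < ∫ q : ℝ × ℝ, rho κ D q.1 q.2 ∂o5M
  rw [integral_pos_iff_support_of_nonneg_ae hnn hint]
  have hsub : (Set.univ ×ˢ Set.Ioi 0 : Set (ℝ × ℝ)) ⊆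
      Function.support (fun q : ℝ × ℝ => rho κ D q.1 q.2) := by
    intro q hq
    have h2 : (0 : ℝ) < q.2 := hq.2
    rw [Function.mem_support, o5_rho]
    have := Real.rpow_pos_of_pos (o5W_pos q.1 q.2) (-κ)
    positivity
  refine lt_of_lt_of_le ?_ (measure_mono hsub)
  unfold o5M
  rw [Measure.prod_prod, Measure.restrict_apply_self, Real.volume_univ, Real.volume_Ioi]
  simp

theorem o5_frac (y : ℝ) : |y / (1 + y ^ 2)| ≤ 1 := by
  rw [abs_div, abs_of_pos (by positivity : (0 : ℝ) < 1 + y ^ 2), div_le_one (by positivity)]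
  have h1 : |y| ^ 2 = y ^ 2 := sq_abs y
  nlinarith [sq_nonneg (|y| - 1 / 2)]

theorem o5_W_t (t r : ℝ) : HasDerivAt (fun t => o5W t r)
    (2 * o5W t r * ((t + r) / (1 + (t + r) ^ 2) + (t - r) / (1 + (t - r) ^ 2))) t := by
  unfold o5W
  have h1 : HasDerivAt (fun t : ℝ => 1 + (t + r) ^ 2) (2 * (t + r)) t := by
    have := (((hasDerivAt_id t).add_const r).pow 2).const_add 1
    refine this.congr_deriv ?_
    simp
  have h2 : HasDerivAt (fun t : ℝ => 1 + (t - r) ^ 2) (2 * (t - r)) t := by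
    have := (((hasDerivAt_id t).sub_const r).pow 2).const_add 1
    refine this.congr_deriv ?_
    simp
  refine (h1.mul h2).congr_deriv ?_
  have e1 : 1 + (t + r) ^ 2 ≠ 0 := by positivity
  have e2 : 1 + (t - r) ^ 2 ≠ 0 := by positivity
  field_simp

theorem o5_W_r (t r : ℝ) : HasDerivAt (fun r => o5W t r)
    (2 * o5W t r * ((t + r) / (1 + (t + r) ^ 2) - (t - r) / (1 + (t - r) ^ 2))) r := by
  unfold o5W
  have h1 : HasDerivAt (fun r : ℝ => 1 + (t + r) ^ 2) (2 * (t + r)) r := by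
    have := (((hasDerivAt_id r).const_add t).pow 2).const_add 1
    refine this.congr_deriv ?_
    simp
  have h2 : HasDerivAt (fun r : ℝ => 1 + (t - r) ^ 2) (-(2 * (t - r))) r := by
    have := (((hasDerivAt_id r).const_sub t).pow 2).const_add 1
    refine this.congr_deriv ?_
    simp
  refine (h1.mul h2).congr_deriv ?_
  have e1 : 1 + (t + r) ^ 2 ≠ 0 := by positivity
  have e2 : 1 + (t - r) ^ 2 ≠ 0 := by positivity
  field_simp
  ring

theorem o5_rho_t (κ : ℝ) (D : ℕ) (t r : ℝ) : HasDerivAt (fun t => rho κ D t r)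
    (-(2 * κ) * ((t + r) / (1 + (t + r) ^ 2) + (t - r) / (1 + (t - r) ^ 2)) * rho κ D t r) t := by
  have h1 := ((o5_W_t t r).rpow_const (p := -κ) (Or.inl (o5W_pos t r).ne')).mul_const (r ^ D)
  have h2 : HasDerivAt (fun t => rho κ D t r) _ t := h1
  refine h2.congr_deriv ?_
  rw [o5_rho, Real.rpow_sub_one (o5W_pos t r).ne']
  have := (o5W_pos t r).ne'
  generalize (t + r) / (1 + (t + r) ^ 2) + (t - r) / (1 + (t - r) ^ 2) = c
  field_simp

theorem o5_rho_r (κ : ℝ) (D : ℕ) (hD : 1 ≤ D) (t r : ℝ) (hr : r ≠ 0) :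
    HasDerivAt (fun r => rho κ D t r)
    (-(2 * κ) * ((t + r) / (1 + (t + r) ^ 2) - (t - r) / (1 + (t - r) ^ 2)) * rho κ D t r +
      D / r * rho κ D t r) r := by
  have h1 := ((o5_W_r t r).rpow_const (p := -κ) (Or.inl (o5W_pos t r).ne')).mul
    (hasDerivAt_pow D r)
  have h2 : HasDerivAt (fun r => rho κ D t r) _ r := h1
  refine h2.congr_deriv ?_
  rw [o5_rho, Real.rpow_sub_one (o5W_pos t r).ne']
  have := (o5W_pos t r).ne'
  generalize (t + r) / (1 + (t + r) ^ 2) - (t - r) / (1 + (t - r) ^ 2) = c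
  obtain ⟨E, rfl⟩ : ∃ E, D = E + 1 := ⟨D - 1, by omega⟩
  rw [Nat.add_sub_cancel]
  field_simp
  ring

/-- integration by parts against the weight `rho` for a vector field `(X, Y)` of linear growth
with divergence of linear growth -/
theorem ibp (κ : ℝ) (D : ℕ) (hD : 1 ≤ D) (hκ : (D : ℝ) + 2 < 2 * κ)
    (X Y X' Y' : ℝ → ℝ → ℝ) (C : ℝ)
    (hX : ∀ t r, HasDerivAt (fun t => X t r) (X' t r) t)
    (hY : ∀ t r, HasDerivAt (fun r => Y t r) (Y' t r) r)
    (hXc : Continuous (fun q : ℝ × ℝ => X q.1 q.2)) (hYc : Continuous (fun q : ℝ × ℝ => Y q.1 q.2))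
    (hXc' : Continuous (fun q : ℝ × ℝ => X' q.1 q.2)) (hYc' : Continuous (fun q : ℝ × ℝ => Y' q.1 q.2))
    (hbX : ∀ t r, |X t r| ≤ C * (1 + |t| + |r|)) (hbY : ∀ t r, |Y t r| ≤ C * (1 + |t| + |r|))
    (hbX' : ∀ t r, |X' t r| ≤ C * (1 + |t| + |r|)) (hbY' : ∀ t r, |Y' t r| ≤ C * (1 + |t| + |r|))
    (hYr : ∀ t r, |Y t r| ≤ C * |r| * (1 + |t| + |r|)) :
    Integrable (fun q : ℝ × ℝ => (X' q.1 q.2 + Y' q.1 q.2
        - 2 * κ * ((X q.1 q.2 + Y q.1 q.2) * ((q.1 + q.2) / (1 + (q.1 + q.2) ^ 2))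
          + (X q.1 q.2 - Y q.1 q.2) * ((q.1 - q.2) / (1 + (q.1 - q.2) ^ 2)))
        + D * (Y q.1 q.2 / q.2)) * rho κ D q.1 q.2)
      ((volume : Measure ℝ).prod (volume.restrict (Set.Ioi 0))) ∧
    ∫ q : ℝ × ℝ, (X' q.1 q.2 + Y' q.1 q.2
        - 2 * κ * ((X q.1 q.2 + Y q.1 q.2) * ((q.1 + q.2) / (1 + (q.1 + q.2) ^ 2))
          + (X q.1 q.2 - Y q.1 q.2) * ((q.1 - q.2) / (1 + (q.1 - q.2) ^ 2)))
        + D * (Y q.1 q.2 / q.2)) * rho κ D q.1 q.2
      ∂((volume : Measure ℝ).prod (volume.restrict (Set.Ioi 0))) = 0 := by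
  have hC : 0 ≤ C := by
    have h1 := (abs_nonneg (X 0 0)).trans (hbX 0 0)
    simpa using h1
  let A : ℝ × ℝ → ℝ := fun q => X' q.1 q.2 * rho κ D q.1 q.2 + X q.1 q.2 *
    (-(2 * κ) * ((q.1 + q.2) / (1 + (q.1 + q.2) ^ 2) + (q.1 - q.2) / (1 + (q.1 - q.2) ^ 2)) *
      rho κ D q.1 q.2)
  let B : ℝ × ℝ → ℝ := fun q => Y' q.1 q.2 * rho κ D q.1 q.2 + Y q.1 q.2 *
    (-(2 * κ) * ((q.1 + q.2) / (1 + (q.1 + q.2) ^ 2) - (q.1 - q.2) / (1 + (q.1 - q.2) ^ 2)) *
      rho κ D q.1 q.2 + D / q.2 * rho κ D q.1 q.2)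
  have hfr1 : Continuous (fun q : ℝ × ℝ => (q.1 + q.2) / (1 + (q.1 + q.2) ^ 2)) :=
    Continuous.div (by fun_prop) (by fun_prop) (fun q => by positivity)
  have hfr2 : Continuous (fun q : ℝ × ℝ => (q.1 - q.2) / (1 + (q.1 - q.2) ^ 2)) :=
    Continuous.div (by fun_prop) (by fun_prop) (fun q => by positivity)
  have hrc := o5_rho_cont κ D
  have hAm : Measurable A :=
    ((hXc'.mul hrc).add (hXc.mul ((continuous_const.mul (hfr1.add hfr2)).mul hrc))).measurable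
  have hBm : Measurable B :=
    (hYc'.mul hrc).measurable.add (hYc.measurable.mul
      (((continuous_const.mul (hfr1.sub hfr2)).mul hrc).measurable.add
        ((measurable_const.div measurable_snd).mul hrc.measurable)))
  have hl : ∀ t r : ℝ, 0 ≤ 1 + |t| + |r| := fun t r => by positivity
  have hAint : Integrable A o5M := by
    apply o5_dom κ D hκ A (C + C * (4 * |κ|)) hAm.aestronglyMeasurable _ (by positivity)
    intro q
    have h1 := o5_frac (q.1 + q.2)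
    have h2 := o5_frac (q.1 - q.2)
    have h3 : |-(2 * κ) * ((q.1 + q.2) / (1 + (q.1 + q.2) ^ 2) + (q.1 - q.2) / (1 + (q.1 - q.2) ^ 2))|
        ≤ 4 * |κ| := by
      rw [abs_mul, abs_neg, abs_mul, abs_two]
      have := (abs_add_le ((q.1 + q.2) / (1 + (q.1 + q.2) ^ 2))
        ((q.1 - q.2) / (1 + (q.1 - q.2) ^ 2)))
      have h4 := abs_nonneg κ
      nlinarith
    calc |A q| ≤ |X' q.1 q.2| * |rho κ D q.1 q.2| + |X q.1 q.2| *
          (|-(2 * κ) * ((q.1 + q.2) / (1 + (q.1 + q.2) ^ 2) +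
            (q.1 - q.2) / (1 + (q.1 - q.2) ^ 2))| * |rho κ D q.1 q.2|) := by
          refine (abs_add_le _ _).trans (le_of_eq ?_)
          rw [abs_mul, abs_mul, abs_mul]
      _ ≤ (C * (1 + |q.1| + |q.2|)) * |rho κ D q.1 q.2| + (C * (1 + |q.1| + |q.2|)) *
          ((4 * |κ|) * |rho κ D q.1 q.2|) := by
          have h5 := hl q.1 q.2
          gcongr
          · exact hbX' _ _
          · exact hbX _ _
      _ = _ := by ring
  have hBint : Integrable B o5M := by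
    apply o5_dom κ D hκ B (C + C * (4 * |κ|) + C * D) hBm.aestronglyMeasurable _ (by positivity)
    intro q
    have h1 := o5_frac (q.1 + q.2)
    have h2 := o5_frac (q.1 - q.2)
    have h3 : |-(2 * κ) * ((q.1 + q.2) / (1 + (q.1 + q.2) ^ 2) - (q.1 - q.2) / (1 + (q.1 - q.2) ^ 2))|
        ≤ 4 * |κ| := by
      rw [abs_mul, abs_neg, abs_mul, abs_two]
      have := (abs_sub ((q.1 + q.2) / (1 + (q.1 + q.2) ^ 2))
        ((q.1 - q.2) / (1 + (q.1 - q.2) ^ 2)))
      have h4 := abs_nonneg κ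
      nlinarith
    have h6 : |Y q.1 q.2 * (D / q.2)| ≤ C * D * (1 + |q.1| + |q.2|) := by
      by_cases hq : q.2 = 0
      · rw [hq, div_zero, mul_zero, abs_zero]
        have := hl q.1 0
        positivity
      · rw [abs_mul, abs_div, Nat.abs_cast, ← mul_div_assoc, div_le_iff₀ (abs_pos.2 hq)]
        have := mul_le_mul_of_nonneg_right (hYr q.1 q.2) (Nat.cast_nonneg (α := ℝ) D)
        linarith
    calc |B q| = |Y' q.1 q.2 * rho κ D q.1 q.2 + (Y q.1 q.2 *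
          ((-(2 * κ) * ((q.1 + q.2) / (1 + (q.1 + q.2) ^ 2) -
            (q.1 - q.2) / (1 + (q.1 - q.2) ^ 2))) * rho κ D q.1 q.2) +
          (Y q.1 q.2 * (D / q.2)) * rho κ D q.1 q.2)| := by
          congr 1
          show Y' q.1 q.2 * rho κ D q.1 q.2 + Y q.1 q.2 *
            (-(2 * κ) * ((q.1 + q.2) / (1 + (q.1 + q.2) ^ 2) - (q.1 - q.2) / (1 + (q.1 - q.2) ^ 2)) *
              rho κ D q.1 q.2 + D / q.2 * rho κ D q.1 q.2) = _
          ring
      _ ≤ |Y' q.1 q.2| * |rho κ D q.1 q.2| + (|Y q.1 q.2| *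
          (|-(2 * κ) * ((q.1 + q.2) / (1 + (q.1 + q.2) ^ 2) -
            (q.1 - q.2) / (1 + (q.1 - q.2) ^ 2))| * |rho κ D q.1 q.2|) +
          |Y q.1 q.2 * (D / q.2)| * |rho κ D q.1 q.2|) := by
          refine (abs_add_le _ _).trans ?_
          rw [abs_mul (Y' q.1 q.2)]
          gcongr
          refine (abs_add_le _ _).trans (le_of_eq ?_)
          rw [abs_mul (Y q.1 q.2 * (D / q.2)), abs_mul (Y q.1 q.2) (_ * rho κ D q.1 q.2),
            abs_mul _ (rho κ D q.1 q.2)]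
      _ ≤ (C * (1 + |q.1| + |q.2|)) * |rho κ D q.1 q.2| + ((C * (1 + |q.1| + |q.2|)) *
          ((4 * |κ|) * |rho κ D q.1 q.2|) +
          (C * D * (1 + |q.1| + |q.2|)) * |rho κ D q.1 q.2|) := by
          have h5 := hl q.1 q.2
          gcongr
          · exact hbY' _ _
          · exact hbY _ _
      _ = _ := by ring
  have hA0 : ∫ q, A q ∂o5M = 0 := by
    unfold o5M
    rw [integral_prod_symm A hAint]
    have h1 : ∀ᵐ r ∂((volume : Measure ℝ).restrict (Set.Ioi 0)), ∫ t, A (t, r) = 0 := by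
      filter_upwards [Integrable.prod_left_ae hAint] with r hr
      have h2 : ∀ t, HasDerivAt (fun t => X t r * rho κ D t r) (A (t, r)) t :=
        fun t => (hX t r).mul (o5_rho_t κ D t r)
      have hb : ∀ t, |X t r * rho κ D t r| ≤ C * ((1 + |t| + |r|) * |rho κ D t r|) := by
        intro t
        rw [abs_mul, ← mul_assoc]
        exact mul_le_mul_of_nonneg_right (hbX t r) (abs_nonneg _)
      have htop : Filter.Tendsto (fun x : ℝ => 1 + 2 * x ^ 2 + 2 * r ^ 2) Filter.atTop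
          Filter.atTop := by
        apply Filter.tendsto_atTop_add_const_right
        apply Filter.tendsto_atTop_add_const_left
        exact (Filter.tendsto_pow_atTop (by norm_num)).const_mul_atTop (by norm_num)
      have hbot : Filter.Tendsto (fun x : ℝ => 1 + 2 * x ^ 2 + 2 * r ^ 2) Filter.atBot
          Filter.atTop := by
        have := htop.comp Filter.tendsto_neg_atBot_atTop
        refine this.congr fun x => ?_
        simp
      have h3 := integral_of_hasDerivAt_of_tendsto h2 hr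
        (o5_lim κ D hκ (fun t => t) (fun _ => r) hbot _ C hC hb)
        (o5_lim κ D hκ (fun t => t) (fun _ => r) htop _ C hC hb)
      rw [h3, sub_zero]
    rw [integral_congr_ae h1]
    simp
  have hB0 : ∫ q, B q ∂o5M = 0 := by
    unfold o5M
    rw [integral_prod B hBint]
    have h1 : ∀ᵐ t ∂(volume : Measure ℝ), ∫ r in Set.Ioi 0, B (t, r) = 0 := by
      filter_upwards [Integrable.prod_right_ae hBint] with t ht
      have h2 : ∀ r ∈ Set.Ioi (0 : ℝ), HasDerivAt (fun r => Y t r * rho κ D t r) (B (t, r)) r :=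
        fun r hr => (hY t r).mul (o5_rho_r κ D hD t r (ne_of_gt hr))
      have hb : ∀ r, |Y t r * rho κ D t r| ≤ C * ((1 + |t| + |r|) * |rho κ D t r|) := by
        intro r
        rw [abs_mul, ← mul_assoc]
        exact mul_le_mul_of_nonneg_right (hbY t r) (abs_nonneg _)
      have htop : Filter.Tendsto (fun x : ℝ => 1 + 2 * t ^ 2 + 2 * x ^ 2) Filter.atTop
          Filter.atTop := by
        apply Filter.tendsto_atTop_add_const_left
        exact (Filter.tendsto_pow_atTop (by norm_num)).const_mul_atTop (by norm_num)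
      have hc : Continuous (fun r => Y t r * rho κ D t r) := by
        have h4 : Continuous (fun r : ℝ => ((t, r) : ℝ × ℝ)) := by fun_prop
        exact (hYc.comp h4).mul (hrc.comp h4)
      have h3 := integral_Ioi_of_hasDerivAt_of_tendsto hc.continuousWithinAt h2 ht
        (o5_lim κ D hκ (fun _ => t) (fun r => r) htop _ C hC hb)
      rw [h3]
      have h5 : rho κ D t 0 = 0 := by
        rw [o5_rho, zero_pow (by omega), mul_zero]
      rw [h5]
      simp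
    rw [integral_congr_ae h1]
    simp
  have hfun : (fun q : ℝ × ℝ => (X' q.1 q.2 + Y' q.1 q.2
        - 2 * κ * ((X q.1 q.2 + Y q.1 q.2) * ((q.1 + q.2) / (1 + (q.1 + q.2) ^ 2))
          + (X q.1 q.2 - Y q.1 q.2) * ((q.1 - q.2) / (1 + (q.1 - q.2) ^ 2)))
        + D * (Y q.1 q.2 / q.2)) * rho κ D q.1 q.2) = fun q => A q + B q := by
    funext q
    show _ = (X' q.1 q.2 * rho κ D q.1 q.2 + X q.1 q.2 *
      (-(2 * κ) * ((q.1 + q.2) / (1 + (q.1 + q.2) ^ 2) + (q.1 - q.2) / (1 + (q.1 - q.2) ^ 2)) *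
        rho κ D q.1 q.2)) + (Y' q.1 q.2 * rho κ D q.1 q.2 + Y q.1 q.2 *
      (-(2 * κ) * ((q.1 + q.2) / (1 + (q.1 + q.2) ^ 2) - (q.1 - q.2) / (1 + (q.1 - q.2) ^ 2)) *
        rho κ D q.1 q.2 + D / q.2 * rho κ D q.1 q.2))
    ring
  rw [hfun]
  refine ⟨hAint.add hBint, ?_⟩
  show ∫ q, A q + B q ∂o5M = 0
  rw [integral_add hAint hBint, hA0, hB0, add_zero]

end J10785

end Pool.Agent.Cone
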