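import Pool.Agent.ConeOI.Defs

set_option autoImplicit false
open MeasureTheory


namespace Pool.Agent.Cone

namespace J10786

theorem loop_ca_pos (y : ℝ) : 0 < ca y := by unfold ca; positivity

theorem loop_ca_mul (y : ℝ) : ca y * (1 + y ^ 2) = 1 := by
  unfold ca
  have : (1 + y ^ 2) ≠ 0 := by positivity
  field_simp

theorem loop_ca_le (y : ℝ) : ca y ≤ 1 := by
  have h1 := loop_ca_mul y
  have h2 := loop_ca_pos y
  nlinarith [sq_nonneg y]

theorem loop_ca_cont : Continuous ca := by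
  unfold ca
  exact continuous_const.div (by fun_prop) (fun y => by positivity)

theorem loop_ca_deriv (y : ℝ) : HasDerivAt ca (-(2 * y * ca y ^ 2)) y := by
  have hne : (1 + y ^ 2) ≠ 0 := by positivity
  have h1 : HasDerivAt (fun y : ℝ => 1 + y ^ 2) (2 * y) y := by
    have := (hasDerivAt_pow 2 y).const_add (1 : ℝ)
    simpa using this
  have h2 : HasDerivAt (fun y : ℝ => (1 + y ^ 2)⁻¹) (-(2 * y) / (1 + y ^ 2) ^ 2) y := h1.inv hne
  have h3 : ca = fun y : ℝ => (1 + y ^ 2)⁻¹ := by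
    ext z
    simp [ca]
  rw [h3]
  refine h2.congr_deriv ?_
  field_simp

theorem loop_h_deriv (y : ℝ) : HasDerivAt (fun y => y * ca y) (2 * ca y ^ 2 - ca y) y := by
  have h : HasDerivAt (fun y => y * ca y) (1 * ca y + y * (-(2 * y * ca y ^ 2))) y :=
    (hasDerivAt_id' y).mul (loop_ca_deriv y)
  have h2 := loop_ca_mul y
  refine h.congr_deriv ?_
  linear_combination (-2 * ca y) * h2

theorem loop_yca (y : ℝ) : |y * ca y| ≤ 1 := by
  have h1 := loop_ca_mul y
  have h2 := loop_ca_pos y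
  rw [abs_le]
  constructor <;> nlinarith [sq_nonneg (y - 1), sq_nonneg (y + 1)]

theorem loop_hd (y : ℝ) : |2 * ca y ^ 2 - ca y| ≤ 1 := by
  have h1 := loop_ca_le y
  have h2 := loop_ca_pos y
  rw [abs_le]
  constructor <;> nlinarith

theorem loop_cad (y : ℝ) : |2 * y * ca y ^ 2| ≤ 2 := by
  have h1 := loop_yca y
  have h2 := loop_ca_pos y
  have h3 := loop_ca_le y
  have : 2 * y * ca y ^ 2 = 2 * ((y * ca y) * ca y) := by ring
  rw [this, abs_mul, abs_mul, abs_two, abs_of_pos h2]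
  nlinarith [abs_nonneg (y * ca y)]

theorem loop_ab (x y : ℝ) : |ca x * ca y * (1 - x * y)| ≤ 1 := by
  have h1 := loop_ca_mul x
  have h2 := loop_ca_mul y
  have p1 := loop_ca_pos x
  have p2 := loop_ca_pos y
  have l1 := loop_ca_le x
  have l2 := loop_ca_le y
  have key : |1 - x * y| ≤ (1 + x ^ 2) * (1 + y ^ 2) := by
    rw [abs_le]
    constructor <;> nlinarith [sq_nonneg (x + y), sq_nonneg (x - y), sq_nonneg (x * y)]
  rw [abs_mul, abs_of_pos (mul_pos p1 p2)]
  calc ca x * ca y * |1 - x * y| ≤ ca x * ca y * ((1 + x ^ 2) * (1 + y ^ 2)) :=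
        mul_le_mul_of_nonneg_left key (mul_pos p1 p2).le
    _ = (ca x * (1 + x ^ 2)) * (ca y * (1 + y ^ 2)) := by ring
    _ = 1 := by rw [h1, h2, mul_one]

theorem loop_xy (x y : ℝ) : |x * y * (ca x * ca y)| ≤ 1 := by
  have h1 := loop_yca x
  have h2 := loop_yca y
  have : x * y * (ca x * ca y) = (x * ca x) * (y * ca y) := by ring
  rw [this, abs_mul]
  nlinarith [abs_nonneg (x * ca x), abs_nonneg (y * ca y)]

/-- the functions of the loop equations -/
noncomputable def LG1 (q : ℝ × ℝ) : ℝ := ca (q.1 + q.2) + ca (q.1 - q.2)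
noncomputable def LG2 (q : ℝ × ℝ) : ℝ :=
  2 * ca (q.1 + q.2) ^ 2 - ca (q.1 + q.2) + (2 * ca (q.1 - q.2) ^ 2 - ca (q.1 - q.2))
noncomputable def LG3 (q : ℝ × ℝ) : ℝ :=
  ca (q.1 + q.2) * ca (q.1 - q.2) * (1 - (q.1 + q.2) * (q.1 - q.2))
noncomputable def LG4 (q : ℝ × ℝ) : ℝ :=
  (q.1 + q.2) * (q.1 - q.2) * (ca (q.1 + q.2) * ca (q.1 - q.2))

theorem loop_c1 : Continuous LG1 := by
  unfold LG1
  have := loop_ca_cont
  fun_prop
theorem loop_c2 : Continuous LG2 := by
  unfold LG2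
  have := loop_ca_cont
  fun_prop
theorem loop_c3 : Continuous LG3 := by
  unfold LG3
  have := loop_ca_cont
  fun_prop
theorem loop_c4 : Continuous LG4 := by
  unfold LG4
  have := loop_ca_cont
  fun_prop

theorem loop_b1 (q : ℝ × ℝ) : |LG1 q| ≤ 2 := by
  unfold LG1
  have h1 := loop_ca_pos (q.1 + q.2)
  have h2 := loop_ca_pos (q.1 - q.2)
  have h3 := loop_ca_le (q.1 + q.2)
  have h4 := loop_ca_le (q.1 - q.2)
  rw [abs_of_pos (by linarith)]
  linarith
theorem loop_b2 (q : ℝ × ℝ) : |LG2 q| ≤ 2 := by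
  unfold LG2
  have h1 := loop_hd (q.1 + q.2)
  have h2 := loop_hd (q.1 - q.2)
  exact (abs_add_le _ _).trans (by linarith)
theorem loop_b3 (q : ℝ × ℝ) : |LG3 q| ≤ 2 := (loop_ab _ _).trans (by norm_num)
theorem loop_b4 (q : ℝ × ℝ) : |LG4 q| ≤ 2 := (loop_xy _ _).trans (by norm_num)

theorem loop_integrable (μ : Measure (ℝ × ℝ)) (w : ℝ × ℝ → ℝ) (hw : Integrable w μ)
    (G : ℝ × ℝ → ℝ) (hG : Continuous G) (hb : ∀ q, |G q| ≤ 2) :
    Integrable (fun q => G q * w q) μ :=
  hw.bdd_mul (c := 2) hG.measurable.aestronglyMeasurable (Filter.Eventually.of_forall hb)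

theorem loop_lin (μ : Measure (ℝ × ℝ)) (w : ℝ × ℝ → ℝ) (hw : Integrable w μ)
    (c0 c1 c2 c3 c4 : ℝ) :
    ∫ q, (c0 + c1 * LG1 q + c2 * LG2 q + c3 * LG3 q + c4 * LG4 q) * w q ∂μ =
      c0 * ∫ q, w q ∂μ + c1 * ∫ q, LG1 q * w q ∂μ + c2 * ∫ q, LG2 q * w q ∂μ +
      c3 * ∫ q, LG3 q * w q ∂μ + c4 * ∫ q, LG4 q * w q ∂μ := by
  have i1 := (loop_integrable μ w hw _ loop_c1 loop_b1).const_mul c1
  have i2 := (loop_integrable μ w hw _ loop_c2 loop_b2).const_mul c2
  have i3 := (loop_integrable μ w hw _ loop_c3 loop_b3).const_mul c3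
  have i4 := (loop_integrable μ w hw _ loop_c4 loop_b4).const_mul c4
  have i0 := hw.const_mul c0
  have i01 : Integrable (fun q => c0 * w q + c1 * (LG1 q * w q)) μ := i0.add i1
  have i02 : Integrable (fun q => c0 * w q + c1 * (LG1 q * w q) + c2 * (LG2 q * w q)) μ :=
    i01.add i2
  have i03 : Integrable (fun q => c0 * w q + c1 * (LG1 q * w q) + c2 * (LG2 q * w q) +
    c3 * (LG3 q * w q)) μ := i02.add i3
  have e : (fun q => (c0 + c1 * LG1 q + c2 * LG2 q + c3 * LG3 q + c4 * LG4 q) * w q) =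
      fun q => c0 * w q + c1 * (LG1 q * w q) + c2 * (LG2 q * w q) + c3 * (LG3 q * w q) +
        c4 * (LG4 q * w q) := by
    ext q
    ring
  rw [e, integral_add i03 i4, integral_add i02 i3, integral_add i01 i2, integral_add i0 i1]
  simp only [integral_const_mul]

theorem loop_hpt (t r : ℝ) : HasDerivAt (fun t => (t + r) * ca (t + r))
    (2 * ca (t + r) ^ 2 - ca (t + r)) t := (loop_h_deriv (t + r)).comp_add_const t r
theorem loop_hmt (t r : ℝ) : HasDerivAt (fun t => (t - r) * ca (t - r))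
    (2 * ca (t - r) ^ 2 - ca (t - r)) t := (loop_h_deriv (t - r)).comp_sub_const t r
theorem loop_hpr (t r : ℝ) : HasDerivAt (fun r => (t + r) * ca (t + r))
    (2 * ca (t + r) ^ 2 - ca (t + r)) r := (loop_h_deriv (t + r)).comp_const_add t r
theorem loop_hmr (t r : ℝ) : HasDerivAt (fun r => (t - r) * ca (t - r))
    (-(2 * ca (t - r) ^ 2 - ca (t - r))) r := (loop_h_deriv (t - r)).comp_const_sub t r
theorem loop_cpt (t r : ℝ) : HasDerivAt (fun t => ca (t + r))
    (-(2 * (t + r) * ca (t + r) ^ 2)) t := (loop_ca_deriv (t + r)).comp_add_const t r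
theorem loop_cmt (t r : ℝ) : HasDerivAt (fun t => ca (t - r))
    (-(2 * (t - r) * ca (t - r) ^ 2)) t := (loop_ca_deriv (t - r)).comp_sub_const t r
theorem loop_cpr (t r : ℝ) : HasDerivAt (fun r => ca (t + r))
    (-(2 * (t + r) * ca (t + r) ^ 2)) r := (loop_ca_deriv (t + r)).comp_const_add t r
theorem loop_cmr (t r : ℝ) : HasDerivAt (fun r => ca (t - r))
    (-(-(2 * (t - r) * ca (t - r) ^ 2))) r := (loop_ca_deriv (t - r)).comp_const_sub t r

theorem loop_Y2 (t r : ℝ) : ((t + r) * ca (t + r) - (t - r) * ca (t - r)) / 2 =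
    r * (ca (t + r) * ca (t - r) * (1 - (t + r) * (t - r))) := by
  have ha := loop_ca_mul (t + r)
  have hb := loop_ca_mul (t - r)
  linear_combination (-((t + r) * ca (t + r)) / 2) * hb + ((t - r) * ca (t - r) / 2) * ha

theorem loop_Y4 (t r : ℝ) : ((t + r) * ca (t - r) - (t - r) * ca (t + r)) / 2 =
    r * (ca (t + r) + ca (t - r) - ca (t + r) * ca (t - r) * (1 - (t + r) * (t - r))) := by
  have h := loop_Y2 t r
  linear_combination (-1) * h

theorem loop_bd {v C t r : ℝ} (hC : C ≤ 3) (hv : |v| ≤ C) : |v| ≤ 3 * (1 + |t| + |r|) := by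
  have h1 := abs_nonneg t
  have h2 := abs_nonneg r
  linarith

theorem loop_div (y : ℝ) : y / (1 + y ^ 2) = y * ca y := by
  unfold ca
  ring

theorem loop
    (κ : ℝ) (D : ℕ) (hD : 1 ≤ D) (hκ : (D : ℝ) + 2 < 2 * κ)
    (rho_integrable : Integrable (fun q : ℝ × ℝ => rho κ D q.1 q.2)
      ((volume : Measure ℝ).prod (volume.restrict (Set.Ioi 0))))
    (ibp : ∀ (X Y X' Y' : ℝ → ℝ → ℝ) (C : ℝ),
      (∀ t r, HasDerivAt (fun t => X t r) (X' t r) t) →
      (∀ t r, HasDerivAt (fun r => Y t r) (Y' t r) r) →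
      Continuous (fun q : ℝ × ℝ => X q.1 q.2) → Continuous (fun q : ℝ × ℝ => Y q.1 q.2) →
      Continuous (fun q : ℝ × ℝ => X' q.1 q.2) → Continuous (fun q : ℝ × ℝ => Y' q.1 q.2) →
      (∀ t r, |X t r| ≤ C * (1 + |t| + |r|)) → (∀ t r, |Y t r| ≤ C * (1 + |t| + |r|)) →
      (∀ t r, |X' t r| ≤ C * (1 + |t| + |r|)) → (∀ t r, |Y' t r| ≤ C * (1 + |t| + |r|)) →
      (∀ t r, |Y t r| ≤ C * |r| * (1 + |t| + |r|)) →
      ∫ q : ℝ × ℝ, (X' q.1 q.2 + Y' q.1 q.2
        - 2 * κ * ((X q.1 q.2 + Y q.1 q.2) * ((q.1 + q.2) / (1 + (q.1 + q.2) ^ 2))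
          + (X q.1 q.2 - Y q.1 q.2) * ((q.1 - q.2) / (1 + (q.1 - q.2) ^ 2)))
        + D * (Y q.1 q.2 / q.2)) * rho κ D q.1 q.2
      ∂((volume : Measure ℝ).prod (volume.restrict (Set.Ioi 0))) = 0)
    (γ : ℝ) :
    ∫ q : ℝ × ℝ, (γ * (γ + 1) * (2 * ca (q.1 + q.2) ^ 2 - ca (q.1 + q.2) +
          (2 * ca (q.1 - q.2) ^ 2 - ca (q.1 - q.2))) +
        2 * γ ^ 2 * (ca (q.1 + q.2) * ca (q.1 - q.2) * (1 - (q.1 + q.2) * (q.1 - q.2)))) *
        rho κ D q.1 q.2 ∂((volume : Measure ℝ).prod (volume.restrict (Set.Ioi 0))) =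
      (2 * γ * (γ + 1) * ((κ * (1 - (D + 2) / (4 * κ)) -
            D / 2 * ((1 - (D + 2) / (4 * κ)) * (2 * κ - 1 - D) / (2 * κ - D))) / (1 + κ)) +
        2 * γ ^ 2 * ((1 - (D + 2) / (4 * κ)) * (2 * κ - 1 - D) / (2 * κ - D))) *
      ∫ q : ℝ × ℝ, rho κ D q.1 q.2 ∂((volume : Measure ℝ).prod (volume.restrict (Set.Ioi 0))) := by
  have hD0 : (0 : ℝ) < D := by exact_mod_cast hD
  have hκ0 : 0 < κ := by linarith
  set μ : Measure (ℝ × ℝ) := (volume : Measure ℝ).prod (volume.restrict (Set.Ioi 0)) with hμ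
  set w : ℝ × ℝ → ℝ := fun q => rho κ D q.1 q.2 with hw
  have hwi : Integrable w μ := rho_integrable
  have hpos : ∀ᵐ q ∂μ, 0 < q.2 := by
    have h1 : ∀ᵐ r ∂(volume.restrict (Set.Ioi (0 : ℝ))), 0 < r := ae_restrict_mem measurableSet_Ioi
    exact (Measure.quasiMeasurePreserving_snd (μ := (volume : Measure ℝ))
      (ν := volume.restrict (Set.Ioi (0 : ℝ)))).ae h1
  have hcc := loop_ca_cont
  have fin : ∀ (G : ℝ × ℝ → ℝ) (c0 c1 c2 c3 c4 : ℝ), ∫ q, G q * w q ∂μ = 0 →
      (∀ q : ℝ × ℝ, 0 < q.2 → G q = c0 + c1 * LG1 q + c2 * LG2 q + c3 * LG3 q + c4 * LG4 q) →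
      c0 * ∫ q, w q ∂μ + c1 * ∫ q, LG1 q * w q ∂μ + c2 * ∫ q, LG2 q * w q ∂μ +
      c3 * ∫ q, LG3 q * w q ∂μ + c4 * ∫ q, LG4 q * w q ∂μ = 0 := by
    intro G c0 c1 c2 c3 c4 h1 h2
    rw [← loop_lin μ w hwi, ← h1]
    refine integral_congr_ae ?_
    filter_upwards [hpos] with q hq
    rw [h2 q hq]
  set Z := ∫ q, w q ∂μ with hZ
  set A1 := ∫ q, LG1 q * w q ∂μ with hA1
  set A2 := ∫ q, LG2 q * w q ∂μ with hA2
  set A3 := ∫ q, LG3 q * w q ∂μ with hA3
  set A4 := ∫ q, LG4 q * w q ∂μ with hA4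
  have E1 := fin _ (2 + D - 4 * κ) (2 * κ) 0 0 0
    (ibp (fun t _ => t) (fun _ r => r) (fun _ _ => 1) (fun _ _ => 1) 3
      (fun t r => hasDerivAt_id' t) (fun t r => hasDerivAt_id' r)
      (by fun_prop) (by fun_prop) (by fun_prop) (by fun_prop)
      (fun t r => by linarith [abs_nonneg t, abs_nonneg r])
      (fun t r => by linarith [abs_nonneg t, abs_nonneg r])
      (fun t r => by rw [abs_one]; linarith [abs_nonneg t, abs_nonneg r])
      (fun t r => by rw [abs_one]; linarith [abs_nonneg t, abs_nonneg r])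
      (fun t r => by
        have h1 := abs_nonneg t
        have h2 := abs_nonneg r
        nlinarith [mul_nonneg h1 h2])) (by
      rintro ⟨t, r⟩ hr
      simp only at hr
      have ha := loop_ca_mul (t + r)
      have hb := loop_ca_mul (t - r)
      have hrr : r / r = 1 := div_self hr.ne'
      simp only [LG1, LG2, LG3, LG4, loop_div, hrr]
      linear_combination (-2 * κ) * ha + (-2 * κ) * hb)
  have bY2 : ∀ t r : ℝ, |((t + r) * ca (t + r) - (t - r) * ca (t - r)) / 2| ≤ |r| := by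
    intro t r
    rw [loop_Y2, abs_mul]
    exact mul_le_of_le_one_right (abs_nonneg _) (loop_ab _ _)
  have bX2 : ∀ t r : ℝ, |((t + r) * ca (t + r) + (t - r) * ca (t - r)) / 2| ≤ 1 := by
    intro t r
    have h1 := abs_le.mp (loop_yca (t + r))
    have h2 := abs_le.mp (loop_yca (t - r))
    rw [abs_le]
    constructor <;> linarith [h1.1, h1.2, h2.1, h2.2]
  have bX2' : ∀ t r : ℝ, |((2 * ca (t + r) ^ 2 - ca (t + r)) + (2 * ca (t - r) ^ 2 - ca (t - r))) / 2|
      ≤ 1 := by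
    intro t r
    have h1 := abs_le.mp (loop_hd (t + r))
    have h2 := abs_le.mp (loop_hd (t - r))
    rw [abs_le]
    constructor <;> linarith [h1.1, h1.2, h2.1, h2.2]
  have bAr : ∀ t r : ℝ, |r| ≤ 3 * (1 + |t| + |r|) := fun t r => by
    linarith [abs_nonneg t, abs_nonneg r]
  have bAr' : ∀ t r : ℝ, |r| ≤ 3 * |r| * (1 + |t| + |r|) := fun t r => by
    have h1 := abs_nonneg t
    have h2 := abs_nonneg r
    nlinarith [mul_nonneg h1 h2]
  have E2 := fin _ 0 (-κ) (1 + κ) D 0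
    (ibp (fun t r => ((t + r) * ca (t + r) + (t - r) * ca (t - r)) / 2)
      (fun t r => ((t + r) * ca (t + r) - (t - r) * ca (t - r)) / 2)
      (fun t r => ((2 * ca (t + r) ^ 2 - ca (t + r)) + (2 * ca (t - r) ^ 2 - ca (t - r))) / 2)
      (fun t r => ((2 * ca (t + r) ^ 2 - ca (t + r)) + (2 * ca (t - r) ^ 2 - ca (t - r))) / 2) 3
      (fun t r => ((loop_hpt t r).add (loop_hmt t r)).div_const 2)
      (fun t r => (((loop_hpr t r).sub (loop_hmr t r)).div_const 2).congr_deriv (by ring))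
      (by fun_prop) (by fun_prop) (by fun_prop) (by fun_prop)
      (fun t r => loop_bd (by norm_num) (bX2 t r))
      (fun t r => (bY2 t r).trans (bAr t r))
      (fun t r => loop_bd (by norm_num) (bX2' t r))
      (fun t r => loop_bd (by norm_num) (bX2' t r))
      (fun t r => (bY2 t r).trans (bAr' t r))) (by
      rintro ⟨t, r⟩ hr
      simp only at hr
      have ha := loop_ca_mul (t + r)
      have hb := loop_ca_mul (t - r)
      have hY : ((t + r) * ca (t + r) - (t - r) * ca (t - r)) / 2 / r =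
          ca (t + r) * ca (t - r) * (1 - (t + r) * (t - r)) := by
        rw [loop_Y2]
        field_simp
      simp only [LG1, LG2, LG3, LG4, loop_div, hY]
      linear_combination (-2 * κ * ca (t + r)) * ha + (-2 * κ * ca (t - r)) * hb)
  have E3 := fin _ 0 0 0 (-D) (-4 * κ)
    (ibp (fun t r => ((t + r) * ca (t + r) + (t - r) * ca (t - r)) / 2)
      (fun t r => -(((t + r) * ca (t + r) - (t - r) * ca (t - r)) / 2))
      (fun t r => ((2 * ca (t + r) ^ 2 - ca (t + r)) + (2 * ca (t - r) ^ 2 - ca (t - r))) / 2)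
      (fun t r => -(((2 * ca (t + r) ^ 2 - ca (t + r)) + (2 * ca (t - r) ^ 2 - ca (t - r))) / 2)) 3
      (fun t r => ((loop_hpt t r).add (loop_hmt t r)).div_const 2)
      (fun t r => (((loop_hpr t r).sub (loop_hmr t r)).div_const 2).neg.congr_deriv (by ring))
      (by fun_prop) (by fun_prop) (by fun_prop) (by fun_prop)
      (fun t r => loop_bd (by norm_num) (bX2 t r))
      (fun t r => by rw [abs_neg]; exact (bY2 t r).trans (bAr t r))
      (fun t r => loop_bd (by norm_num) (bX2' t r))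
      (fun t r => by rw [abs_neg]; exact loop_bd (by norm_num) (bX2' t r))
      (fun t r => by rw [abs_neg]; exact (bY2 t r).trans (bAr' t r))) (by
      rintro ⟨t, r⟩ hr
      simp only at hr
      have hY : -(((t + r) * ca (t + r) - (t - r) * ca (t - r)) / 2) / r =
          -(ca (t + r) * ca (t - r) * (1 - (t + r) * (t - r))) := by
        rw [loop_Y2]
        field_simp
      simp only [LG1, LG2, LG3, LG4, loop_div, hY]
      ring)
  have bY4 : ∀ t r : ℝ, |((t + r) * ca (t - r) - (t - r) * ca (t + r)) / 2| ≤ 3 * |r| := by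
    intro t r
    rw [loop_Y4, abs_mul, mul_comm]
    refine mul_le_mul_of_nonneg_right ?_ (abs_nonneg _)
    have h1 := loop_ca_pos (t + r)
    have h2 := loop_ca_pos (t - r)
    have h3 := loop_ca_le (t + r)
    have h4 := loop_ca_le (t - r)
    have h5 := abs_le.mp (loop_ab (t + r) (t - r))
    rw [abs_le]
    constructor <;> linarith [h5.1, h5.2]
  have bp : ∀ t r : ℝ, |t + r| ≤ |t| + |r| := fun t r => abs_add_le t r
  have bm : ∀ t r : ℝ, |t - r| ≤ |t| + |r| := fun t r => abs_sub t r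
  have bca : ∀ y z C : ℝ, |y| ≤ C → |y * ca z| ≤ C := by
    intro y z C h
    have h1 := loop_ca_pos z
    have h2 := loop_ca_le z
    rw [abs_mul, abs_of_pos h1]
    nlinarith [abs_nonneg y]
  have bcad : ∀ y z C : ℝ, |y| ≤ C → |y * (2 * z * ca z ^ 2)| ≤ 2 * C := by
    intro y z C h
    have h1 := loop_cad z
    rw [abs_mul]
    nlinarith [abs_nonneg y, abs_nonneg (2 * z * ca z ^ 2)]
  have E4 := fin _ 0 (1 - 2 * κ + D) 0 (4 * κ - D) (4 * κ)
    (ibp (fun t r => ((t + r) * ca (t - r) + (t - r) * ca (t + r)) / 2)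
      (fun t r => ((t + r) * ca (t - r) - (t - r) * ca (t + r)) / 2)
      (fun t r => (ca (t - r) - (t + r) * (2 * (t - r) * ca (t - r) ^ 2) +
        (ca (t + r) - (t - r) * (2 * (t + r) * ca (t + r) ^ 2))) / 2)
      (fun t r => (ca (t - r) + (t + r) * (2 * (t - r) * ca (t - r) ^ 2) +
        (ca (t + r) + (t - r) * (2 * (t + r) * ca (t + r) ^ 2))) / 2) 3
      (fun t r => (((((hasDerivAt_id' t).add_const r).mul (loop_cmt t r)).add
        (((hasDerivAt_id' t).sub_const r).mul (loop_cpt t r))).div_const 2).congr_deriv (by ring))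
      (fun t r => (((((hasDerivAt_id' r).const_add t).mul (loop_cmr t r)).sub
        (((hasDerivAt_id' r).const_sub t).mul (loop_cpr t r))).div_const 2).congr_deriv (by ring))
      (by fun_prop) (by fun_prop) (by fun_prop) (by fun_prop)
      (fun t r => by
        have h1 := abs_le.mp (bca _ (t - r) _ (bp t r))
        have h2 := abs_le.mp (bca _ (t + r) _ (bm t r))
        rw [abs_le]
        constructor <;> linarith [h1.1, h1.2, h2.1, h2.2, abs_nonneg t, abs_nonneg r])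
      (fun t r => (bY4 t r).trans (by linarith [abs_nonneg t, abs_nonneg r]))
      (fun t r => by
        have h1 := abs_le.mp (bcad _ (t - r) _ (bp t r))
        have h2 := abs_le.mp (bcad _ (t + r) _ (bm t r))
        have p1 := loop_ca_pos (t + r)
        have p2 := loop_ca_pos (t - r)
        have p3 := loop_ca_le (t + r)
        have p4 := loop_ca_le (t - r)
        rw [abs_le]
        constructor <;> linarith [h1.1, h1.2, h2.1, h2.2, abs_nonneg t, abs_nonneg r])
      (fun t r => by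
        have h1 := abs_le.mp (bcad _ (t - r) _ (bp t r))
        have h2 := abs_le.mp (bcad _ (t + r) _ (bm t r))
        have p1 := loop_ca_pos (t + r)
        have p2 := loop_ca_pos (t - r)
        have p3 := loop_ca_le (t + r)
        have p4 := loop_ca_le (t - r)
        rw [abs_le]
        constructor <;> linarith [h1.1, h1.2, h2.1, h2.2, abs_nonneg t, abs_nonneg r])
      (fun t r => (bY4 t r).trans (by
        have h1 := abs_nonneg t
        have h2 := abs_nonneg r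
        nlinarith [mul_nonneg h1 h2]))) (by
      rintro ⟨t, r⟩ hr
      simp only at hr
      have ha := loop_ca_mul (t + r)
      have hb := loop_ca_mul (t - r)
      have hY : ((t + r) * ca (t - r) - (t - r) * ca (t + r)) / 2 / r =
          ca (t + r) + ca (t - r) - ca (t + r) * ca (t - r) * (1 - (t + r) * (t - r)) := by
        rw [loop_Y4]
        field_simp
      simp only [LG1, LG2, LG3, LG4, loop_div, hY]
      linear_combination (-2 * κ * ca (t - r)) * ha + (-2 * κ * ca (t + r)) * hb)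
  have hgoal : ∫ q : ℝ × ℝ, (γ * (γ + 1) * (2 * ca (q.1 + q.2) ^ 2 - ca (q.1 + q.2) +
          (2 * ca (q.1 - q.2) ^ 2 - ca (q.1 - q.2))) +
        2 * γ ^ 2 * (ca (q.1 + q.2) * ca (q.1 - q.2) * (1 - (q.1 + q.2) * (q.1 - q.2)))) *
        rho κ D q.1 q.2 ∂μ = γ * (γ + 1) * A2 + 2 * γ ^ 2 * A3 := by
    have h := loop_lin μ w hwi 0 0 (γ * (γ + 1)) (2 * γ ^ 2) 0
    have h2 : ∫ q : ℝ × ℝ, (γ * (γ + 1) * (2 * ca (q.1 + q.2) ^ 2 - ca (q.1 + q.2) +
          (2 * ca (q.1 - q.2) ^ 2 - ca (q.1 - q.2))) +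
        2 * γ ^ 2 * (ca (q.1 + q.2) * ca (q.1 - q.2) * (1 - (q.1 + q.2) * (q.1 - q.2)))) *
        rho κ D q.1 q.2 ∂μ = ∫ q, (0 + 0 * LG1 q + γ * (γ + 1) * LG2 q + 2 * γ ^ 2 * LG3 q +
          0 * LG4 q) * w q ∂μ := by
      congr 1
      ext q
      simp only [LG1, LG2, LG3, LG4, hw]
      ring
    rw [h2, h]
    ring
  rw [hgoal]
  set m : ℝ := 1 - (D + 2) / (4 * κ) with hm
  have hm' : 4 * κ * m = 4 * κ - (D + 2) := by
    rw [hm]
    field_simp
  have hd1 : 0 < 2 * κ - D := by linarith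
  have hd2 : 0 < 1 + κ := by linarith
  have hA1' : A1 = 2 * m * Z := by
    have : 2 * κ * A1 = 2 * κ * (2 * m * Z) := by linear_combination E1 - Z * hm'
    exact mul_left_cancel₀ (by positivity) this
  have hA3' : A3 = m * (2 * κ - 1 - D) / (2 * κ - D) * Z := by
    have h1 : (2 * κ - D) * A3 = m * (2 * κ - 1 - D) * Z := by
      rw [hA1'] at E4
      linear_combination (1 / 2) * E4 + (1 / 2) * E3
    field_simp
    linear_combination h1
  have hA2' : A2 = 2 * ((κ * m - D / 2 * (m * (2 * κ - 1 - D) / (2 * κ - D))) / (1 + κ)) * Z := by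
    have h1 : (1 + κ) * A2 = 2 * (κ * m * Z - D / 2 * A3) := by
      rw [hA1'] at E2
      linear_combination E2
    rw [hA3'] at h1
    have h2 : A2 = (2 * (κ * m * Z - D / 2 * (m * (2 * κ - 1 - D) / (2 * κ - D) * Z))) / (1 + κ) := by
      rw [eq_div_iff hd2.ne']
      linear_combination h1
    rw [h2]
    ring
  rw [hA2', hA3']
  ring

end J10786

end Pool.Agent.Cone
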