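import Pool.Agent.ConeOI.Defs

set_option autoImplicit false
open MeasureTheory


namespace Pool.Agent.Cone

namespace J10849

theorem radial (d : ℕ) (hd : 2 ≤ d) : ∃ K : ℝ, 0 < K ∧ ∀ f : ℝ → ℝ → ℝ,
    Continuous (fun q : ℝ × ℝ => f q.1 q.2) →
    Integrable (fun q : ℝ × ℝ => f q.1 q.2 * q.2 ^ (d - 1))
      ((volume : Measure ℝ).prod (volume.restrict (Set.Ioi 0))) →
    Integrable (fun z : ℝ × EuclideanSpace ℝ (Fin d) => f z.1 ‖z.2‖) ∧
    ∫ z : ℝ × EuclideanSpace ℝ (Fin d), f z.1 ‖z.2‖ =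
      K * ∫ q : ℝ × ℝ, f q.1 q.2 * q.2 ^ (d - 1)
        ∂((volume : Measure ℝ).prod (volume.restrict (Set.Ioi 0))) := by
  have hdim : Module.finrank ℝ (EuclideanSpace ℝ (Fin d)) = d := finrank_euclideanSpace_fin
  haveI : Nontrivial (EuclideanSpace ℝ (Fin d)) := by
    apply Module.nontrivial_of_finrank_pos (R := ℝ)
    rw [hdim]
    omega
  have hV : 0 < (volume : Measure (EuclideanSpace ℝ (Fin d))).real (Metric.ball 0 1) :=
    ENNReal.toReal_pos (Metric.measure_ball_pos _ _ one_pos).ne' measure_ball_lt_top.ne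
  set V := (volume : Measure (EuclideanSpace ℝ (Fin d))).real (Metric.ball 0 1) with hVdef
  have hd0 : (0 : ℝ) < d := by exact_mod_cast (by omega : 0 < d)
  refine ⟨d * V, by positivity, ?_⟩
  intro f hf hint
  have hmeas : AEStronglyMeasurable (fun z : ℝ × EuclideanSpace ℝ (Fin d) => f z.1 ‖z.2‖)
      ((volume : Measure ℝ).prod volume) := by
    have : Continuous (fun z : ℝ × EuclideanSpace ℝ (Fin d) => f z.1 ‖z.2‖) :=
      hf.comp (continuous_fst.prodMk continuous_snd.norm)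
    exact this.aestronglyMeasurable
  have hI : Integrable (fun z : ℝ × EuclideanSpace ℝ (Fin d) => f z.1 ‖z.2‖)
      ((volume : Measure ℝ).prod volume) := by
    rw [integrable_prod_iff hmeas]
    constructor
    · filter_upwards [hint.prod_right_ae] with t ht
      rw [integrable_fun_norm_addHaar (volume : Measure (EuclideanSpace ℝ (Fin d)))
        (f := fun y => f t y), hdim]
      refine Integrable.congr ht ?_
      filter_upwards with y
      rw [smul_eq_mul, mul_comm]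
    · have h1 := hint.integral_norm_prod_left.const_mul (d * V)
      refine h1.congr ?_
      filter_upwards with t
      rw [integral_fun_norm_addHaar (volume : Measure (EuclideanSpace ℝ (Fin d)))
        (fun y => ‖f t y‖), hdim, nsmul_eq_mul, smul_eq_mul, ← mul_assoc]
      congr 1
      apply setIntegral_congr_fun measurableSet_Ioi
      intro y hy
      have hy0 : 0 < y := hy
      simp only
      rw [smul_eq_mul, norm_mul, Real.norm_of_nonneg (pow_nonneg hy0.le _), mul_comm]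
  refine ⟨hI, ?_⟩
  have h2 : ∫ z : ℝ × EuclideanSpace ℝ (Fin d), f z.1 ‖z.2‖ =
      ∫ t : ℝ, ∫ x : EuclideanSpace ℝ (Fin d), f t ‖x‖ := integral_prod _ hI
  rw [h2, integral_prod _ hint, ← integral_const_mul]
  congr 1
  ext t
  rw [integral_fun_norm_addHaar (volume : Measure (EuclideanSpace ℝ (Fin d)))
    (fun y => f t y), hdim, nsmul_eq_mul, smul_eq_mul, ← mul_assoc]
  congr 1
  apply setIntegral_congr_fun measurableSet_Ioi
  intro y _
  simp only
  rw [smul_eq_mul, mul_comm]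

/-- the algebraic identity behind `alg` -/
theorem alg_identity (d δ : ℝ) (hd : 1 < d) (hδ : 0 < δ) (hδ2 : δ < d - 1) :
    (2 * ((d - 1) / 2) * ((d - 1) / 2 + 1) *
        (((d ^ 2 - 1) / (2 * δ) * ((2 * d - 2 - δ) / (2 * (d - 1))) -
            (d - 1) / 2 * ((2 * d - 2 - δ) / (2 * (d - 1)) *
              (2 * ((d ^ 2 - 1) / (2 * δ)) - 1 - (d - 1)) / (2 * ((d ^ 2 - 1) / (2 * δ)) - (d - 1)))) /
                (1 + (d ^ 2 - 1) / (2 * δ))) +
        2 * ((d - 1) / 2) ^ 2 * ((2 * d - 2 - δ) / (2 * (d - 1)) *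
          (2 * ((d ^ 2 - 1) / (2 * δ)) - 1 - (d - 1)) / (2 * ((d ^ 2 - 1) / (2 * δ)) - (d - 1)))) -
      ((2 * d - δ - 1) * (2 * d - δ - 2) / 4) =
      (2 * d - 2 - δ) / (2 * (d - 1)) * (d - 1) * (δ - (d - 1)) * (δ - (d + 1) / 2) /
        (2 * δ + d ^ 2 - 1) := by
  have h1 : d - 1 ≠ 0 := by linarith
  have h2 : (2 * δ + d ^ 2 - 1) ≠ 0 := by nlinarith
  have h3 : 1 + (d ^ 2 - 1) / (2 * δ) = (2 * δ + d ^ 2 - 1) / (2 * δ) := by
    field_simp
    ring
  have h4 : 2 * ((d ^ 2 - 1) / (2 * δ)) - (d - 1) = (d - 1) * (d + 1 - δ) / δ := by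
    field_simp
    ring
  have h5 : 2 * ((d ^ 2 - 1) / (2 * δ)) - 1 - (d - 1) = (d ^ 2 - 1 - d * δ) / δ := by
    field_simp
    ring
  have h6 : d + 1 - δ ≠ 0 := by linarith
  rw [h3, h4, h5]
  field_simp
  ring

/-- the algebraic part: the two sides of the first order condition differ -/
theorem alg (d : ℕ) (hd : 2 ≤ d) (s κ : ℝ) (hs : 1 / 2 < s) (hs2 : s < (d : ℝ) / 2)
    (hs3 : s ≠ ((d : ℝ) - 1) / 4)
    (hκ : κ = gm d * (2 * ((d : ℝ) + 1) / ((d : ℝ) - 2 * s)) / 2) :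
    (((d - 1 : ℕ) : ℝ) + 2 < 2 * κ) ∧
    (2 * gm d * (gm d + 1) * ((κ * (1 - (((d - 1 : ℕ) : ℝ) + 2) / (4 * κ)) -
            ((d - 1 : ℕ) : ℝ) / 2 * ((1 - (((d - 1 : ℕ) : ℝ) + 2) / (4 * κ)) *
              (2 * κ - 1 - ((d - 1 : ℕ) : ℝ)) / (2 * κ - ((d - 1 : ℕ) : ℝ)))) / (1 + κ)) +
        2 * gm d ^ 2 * ((1 - (((d - 1 : ℕ) : ℝ) + 2) / (4 * κ)) *
          (2 * κ - 1 - ((d - 1 : ℕ) : ℝ)) / (2 * κ - ((d - 1 : ℕ) : ℝ)))) ≠
      ((2 * s - 2) + d + 1) * ((2 * s - 2) + d) / 4 := by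
  have hD : ((d - 1 : ℕ) : ℝ) = (d : ℝ) - 1 := by
    rw [Nat.cast_sub (by omega), Nat.cast_one]
  have hd1 : (2 : ℝ) ≤ d := by exact_mod_cast hd
  rw [hD]
  obtain ⟨δ, hδ⟩ : ∃ δ : ℝ, δ = (d : ℝ) - 2 * s := ⟨_, rfl⟩
  have hδ0 : 0 < δ := by rw [hδ]; linarith
  have hδ1 : δ < d - 1 := by rw [hδ]; linarith
  have hs' : 2 * s = d - δ := by rw [hδ]; ring
  have hκ' : κ = ((d : ℝ) ^ 2 - 1) / (2 * δ) := by
    rw [hκ, ← hδ, gm]
    field_simp
    ring
  have hm : 1 - ((d : ℝ) - 1 + 2) / (4 * κ) = (2 * d - 2 - δ) / (2 * (d - 1)) := by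
    rw [hκ']
    have h1 : (d : ℝ) - 1 ≠ 0 := by linarith
    have h2 : (d : ℝ) ^ 2 - 1 ≠ 0 := by nlinarith
    have h3 : (d : ℝ) + 1 ≠ 0 := by linarith
    have h4 : (d : ℝ) ^ 2 - 1 = (d - 1) * (d + 1) := by ring
    rw [h4]
    field_simp
    ring
  constructor
  · rw [hκ']
    have h1 : 2 * (((d : ℝ) ^ 2 - 1) / (2 * δ)) = ((d : ℝ) ^ 2 - 1) / δ := by
      field_simp
    rw [h1, lt_div_iff₀ hδ0]
    nlinarith
  · intro heq
    have hid := alg_identity d δ (by linarith) hδ0 hδ1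
    rw [hm, hκ', hs', gm] at heq
    have hR : ((d : ℝ) - δ - 2 + d + 1) * ((d : ℝ) - δ - 2 + d) / 4 =
        (2 * d - δ - 1) * (2 * d - δ - 2) / 4 := by ring
    rw [hR] at heq
    rw [heq, sub_self] at hid
    have e1 : (2 * (d : ℝ) - 2 - δ) ≠ 0 := by linarith
    have e2 : (d : ℝ) - 1 ≠ 0 := by linarith
    have e3 : δ - ((d : ℝ) - 1) ≠ 0 := by linarith
    have e4 : δ - ((d : ℝ) + 1) / 2 ≠ 0 := by
      intro h
      apply hs3
      linarith
    have e5 : (2 * δ + (d : ℝ) ^ 2 - 1) ≠ 0 := by nlinarith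
    have e6 : (2 * (d : ℝ) - 2 - δ) / (2 * (d - 1)) * (d - 1) * (δ - (d - 1)) *
        (δ - (d + 1) / 2) / (2 * δ + d ^ 2 - 1) ≠ 0 := by
      apply div_ne_zero _ e5
      apply mul_ne_zero _ e4
      apply mul_ne_zero _ e3
      apply mul_ne_zero _ e2
      exact div_ne_zero e1 (mul_ne_zero two_ne_zero e2)
    exact e6 hid.symm

/-- a function above its tangent data: comparison of derivatives at zero -/
theorem deriv_cmp (p R T n : ℝ) (hp : 1 < p) (hn : 0 ≤ n)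
    (h : ∀ ε : ℝ, |ε| ≤ 1 → 0 ≤ 1 + 2 * T * ε + n * ε ^ 2 →
      1 + p * ε * R ≤ (1 + 2 * T * ε + n * ε ^ 2) ^ (p / 2)) : R = T := by
  have hq : HasDerivAt (fun ε : ℝ => 1 + 2 * T * ε + n * ε ^ 2) (2 * T) 0 := by
    have h1 : HasDerivAt (fun ε : ℝ => 1 + 2 * T * ε) (2 * T) 0 := by
      simpa using ((hasDerivAt_id (0 : ℝ)).const_mul (2 * T)).const_add 1
    have h2 : HasDerivAt (fun ε : ℝ => n * ε ^ 2) 0 0 := by
      simpa using ((hasDerivAt_pow 2 (0 : ℝ)).const_mul n)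
    have h3 := h1.add h2
    rw [add_zero] at h3
    exact h3
  have hr := hq.rpow_const (p := p / 2) (Or.inl (by norm_num))
  have hlin : HasDerivAt (fun ε : ℝ => 1 + p * ε * R) (p * R) 0 := by
    have h1 : HasDerivAt (fun ε : ℝ => ε * (p * R)) (p * R) 0 := by
      simpa using (hasDerivAt_id (0 : ℝ)).mul_const (p * R)
    have h2 := h1.const_add 1
    have h3 : (fun ε : ℝ => 1 + p * ε * R) = fun ε => 1 + ε * (p * R) := by
      funext ε
      ring
    rw [h3]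
    exact h2
  have hg := hr.sub hlin
  have hmin : IsLocalMin ((fun ε : ℝ => (1 + 2 * T * ε + n * ε ^ 2) ^ (p / 2)) -
      fun ε : ℝ => 1 + p * ε * R) 0 := by
    have hcont : Continuous (fun ε : ℝ => 1 + 2 * T * ε + n * ε ^ 2) := by fun_prop
    have h1 : ∀ᶠ ε in nhds (0 : ℝ), 0 < 1 + 2 * T * ε + n * ε ^ 2 := by
      apply hcont.continuousAt.eventually (lt_mem_nhds _)
      norm_num
    filter_upwards [h1, Metric.closedBall_mem_nhds (0 : ℝ) one_pos] with ε h2 h3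
    rw [Metric.mem_closedBall, dist_zero_right, Real.norm_eq_abs] at h3
    have h4 := h ε h3 h2.le
    simp only [Pi.sub_apply]
    norm_num
    linarith
  have h0 := hmin.hasDerivAt_eq_zero hg
  norm_num at h0
  have hp0 : p ≠ 0 := by linarith
  have h5 : p * (T - R) = 0 := by linarith
  rcases mul_eq_zero.1 h5 with h6 | h6
  · exact absurd h6 hp0
  · linarith

end J10849

end Pool.Agent.Cone
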