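import Pool.Agent.ConeOI.Defs

set_option autoImplicit false
open MeasureTheory


namespace Pool.Agent.Cone

namespace J10850

theorem j10850_rp (a k : ℝ) (ha : 0 ≤ a) : a ^ (2 * k) = (a ^ 2) ^ k := by
  rw [Real.rpow_mul ha, Real.rpow_two]

theorem j10850_ae {d : ℕ} (hd : 2 ≤ d) : ∀ᵐ ξ : EuclideanSpace ℝ (Fin d), ξ ≠ 0 := by
  have hne : Nonempty (Fin d) := ⟨⟨0, by omega⟩⟩
  have : (volume : Measure (EuclideanSpace ℝ (Fin d))) {0} = 0 := measure_singleton 0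
  rw [ae_iff]
  simpa using this

theorem j10850_pt0 (s t r ip : ℝ) (hr : 0 < r) :
    Complex.exp (Complex.I * ((t * r + ip : ℝ) : ℂ)) * ((r ^ (-2 * s) : ℝ) : ℂ) *
      (((r ^ (2 * s - 1) * Real.exp (-r)) : ℝ) : ℂ) =
    Complex.exp (-((1 - Complex.I * (t : ℂ)) * (r : ℂ)) + Complex.I * (ip : ℂ)) *
      ((r ^ (((0 : ℕ) : ℝ) - 1) : ℝ) : ℂ) := by
  have h1 : r ^ (-2 * s) * r ^ (2 * s - 1) = r ^ (((0 : ℕ) : ℝ) - 1) := by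
    rw [← Real.rpow_add hr]
    congr 1
    push_cast
    ring
  have h2 : Complex.exp (Complex.I * ((t * r + ip : ℝ) : ℂ)) * Complex.exp (-(r : ℂ)) =
      Complex.exp (-((1 - Complex.I * (t : ℂ)) * (r : ℂ)) + Complex.I * (ip : ℂ)) := by
    rw [← Complex.exp_add]
    congr 1
    push_cast
    ring
  rw [← h1, ← h2]
  push_cast
  ring

theorem j10850_pt2 (s t r ip ε : ℝ) (hr : 0 < r) :
    Complex.exp (Complex.I * ((t * r + ip : ℝ) : ℂ)) * ((r ^ (-2 * s) : ℝ) : ℂ) *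
      (((r ^ (2 * s - 1) * Real.exp (-r) * (1 + ε * r ^ 2)) : ℝ) : ℂ) =
    Complex.exp (-((1 - Complex.I * (t : ℂ)) * (r : ℂ)) + Complex.I * (ip : ℂ)) *
      ((r ^ (((0 : ℕ) : ℝ) - 1) : ℝ) : ℂ) +
    (ε : ℂ) * (Complex.exp (-((1 - Complex.I * (t : ℂ)) * (r : ℂ)) + Complex.I * (ip : ℂ)) *
      ((r ^ (((2 : ℕ) : ℝ) - 1) : ℝ) : ℂ)) := by
  have h0 := j10850_pt0 s t r ip hr
  have h1 : r ^ (((2 : ℕ) : ℝ) - 1) = r ^ (((0 : ℕ) : ℝ) - 1) * r ^ 2 := by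
    rw [← Real.rpow_natCast r 2, ← Real.rpow_add hr]
    congr 1
    push_cast
    ring
  rw [h1, Complex.ofReal_mul (r ^ (2 * s - 1) * Real.exp (-r)) (1 + ε * r ^ 2), ← mul_assoc, h0]
  push_cast
  ring

theorem j10850_ptn (s r ε : ℝ) (hr : 0 < r) :
    (r ^ (2 * s - 1) * Real.exp (-r) * (1 + ε * r ^ 2)) ^ 2 * r ^ (-2 * s) =
      r ^ (2 * s - 2) * Real.exp (-2 * r) + 2 * ε * (r ^ ((2 * s - 2) + 2) * Real.exp (-2 * r)) +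
        ε ^ 2 * (r ^ ((2 * s - 2) + 2 + 2) * Real.exp (-2 * r)) := by
  have h1 : (r ^ (2 * s - 1)) ^ 2 * r ^ (-2 * s) = r ^ (2 * s - 2) := by
    rw [← Real.rpow_natCast (r ^ (2 * s - 1)) 2, ← Real.rpow_mul hr.le, ← Real.rpow_add hr]
    congr 1
    push_cast
    ring
  have h2 : r ^ ((2 * s - 2) + 2) = r ^ (2 * s - 2) * r ^ 2 := by
    rw [← Real.rpow_natCast r 2, ← Real.rpow_add hr]
    norm_num
  have h3 : r ^ ((2 * s - 2) + 2 + 2) = r ^ (2 * s - 2) * r ^ 4 := by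
    rw [← Real.rpow_natCast r 4, ← Real.rpow_add hr]
    congr 1
    push_cast
    ring
  have h4 : Real.exp (-2 * r) = Real.exp (-r) ^ 2 := by
    rw [← Real.exp_nat_mul]
    congr 1
    push_cast
    ring
  rw [h2, h3, h4, ← h1]
  ring

/-- the real part of the quotient -/
noncomputable def Rq (γ t r : ℝ) : ℝ :=
  γ * (γ + 1) * (2 * ca (t + r) ^ 2 - ca (t + r) + (2 * ca (t - r) ^ 2 - ca (t - r))) +
    2 * γ ^ 2 * (ca (t + r) * ca (t - r) * (1 - (t + r) * (t - r)))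

theorem ca_continuous : Continuous ca := by
  unfold ca
  exact continuous_const.div (by fun_prop) fun y => by positivity

theorem ca_bd (y : ℝ) : 0 < ca y ∧ ca y ≤ 1 := by
  unfold ca
  constructor
  · positivity
  · rw [div_le_one (by positivity)]
    nlinarith [sq_nonneg y]

theorem Rq_continuous (γ : ℝ) : Continuous fun q : ℝ × ℝ => Rq γ q.1 q.2 := by
  have h1 : Continuous fun q : ℝ × ℝ => ca (q.1 + q.2) := ca_continuous.comp (by fun_prop)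
  have h2 : Continuous fun q : ℝ × ℝ => ca (q.1 - q.2) := ca_continuous.comp (by fun_prop)
  unfold Rq
  fun_prop

theorem ca_cross (y z : ℝ) : |ca y * ca z * (1 - y * z)| ≤ 1 := by
  have hy := ca_bd y
  have hz := ca_bd z
  rw [← sq_le_one_iff_abs_le_one]
  have h1 : ca y * (1 + y ^ 2) = 1 := by
    unfold ca
    field_simp
  have h2 : ca z * (1 + z ^ 2) = 1 := by
    unfold ca
    field_simp
  have h3 : (1 - y * z) ^ 2 ≤ (1 + y ^ 2) * (1 + z ^ 2) := by nlinarith [sq_nonneg (y + z)]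
  calc (ca y * ca z * (1 - y * z)) ^ 2 = (ca y * ca z) ^ 2 * (1 - y * z) ^ 2 := by ring
    _ ≤ (ca y * ca z) ^ 2 * ((1 + y ^ 2) * (1 + z ^ 2)) :=
        mul_le_mul_of_nonneg_left h3 (sq_nonneg _)
    _ = (ca y * (1 + y ^ 2)) * (ca z * (1 + z ^ 2)) * (ca y * ca z) := by ring
    _ = ca y * ca z := by rw [h1, h2]; ring
    _ ≤ 1 := mul_le_one₀ hy.2 hz.1.le hz.2

theorem Rq_bd (γ : ℝ) (hγ : 0 ≤ γ) (t r : ℝ) : ‖Rq γ t r‖ ≤ 2 * (γ * (γ + 1)) + 2 * γ ^ 2 := by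
  have key : ∀ y : ℝ, |2 * ca y ^ 2 - ca y| ≤ 1 := by
    intro y
    have hy := ca_bd y
    rw [abs_le]
    constructor <;> nlinarith
  have h1 := abs_le.1 (key (t + r))
  have h2 := abs_le.1 (key (t - r))
  have h3 := abs_le.1 (ca_cross (t + r) (t - r))
  have h4 : 0 ≤ γ * (γ + 1) := by positivity
  have h5 : 0 ≤ 2 * γ ^ 2 := by positivity
  rw [Real.norm_eq_abs, abs_le]
  unfold Rq
  constructor
  · have e1 := mul_le_mul_of_nonneg_left (add_le_add h1.1 h2.1) h4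
    have e2 := mul_le_mul_of_nonneg_left h3.1 h5
    linarith
  · have e1 := mul_le_mul_of_nonneg_left (add_le_add h1.2 h2.2) h4
    have e2 := mul_le_mul_of_nonneg_left h3.2 h5
    linarith

theorem j10850_alg (P0 n0 Nε A p : ℝ) (hP0 : 0 < P0) (hn0 : 0 < n0) (hN : 0 ≤ Nε) (hp : 0 < p)
    (h : ENNReal.ofReal (P0 * A) * ENNReal.ofReal n0 ^ (p / 2) ≤
      ENNReal.ofReal P0 * ENNReal.ofReal Nε ^ (p / 2)) : A ≤ (Nε / n0) ^ (p / 2) := by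
  rcases le_or_gt A 0 with hA | hA
  · exact hA.trans (by positivity)
  rw [ENNReal.ofReal_rpow_of_nonneg hn0.le (by positivity),
    ENNReal.ofReal_rpow_of_nonneg hN (by positivity), ← ENNReal.ofReal_mul (by positivity),
    ← ENNReal.ofReal_mul hP0.le, ENNReal.ofReal_le_ofReal_iff (by positivity), mul_assoc] at h
  have h1 := le_of_mul_le_mul_left h hP0
  rw [Real.div_rpow hN hn0.le, le_div_iff₀ (by positivity)]
  exact h1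

theorem j10850_lint {α : Type*} [MeasurableSpace α] (μ : Measure α) (f : α → ℝ) (hf : Integrable f μ) :
    ENNReal.ofReal (∫ x, f x ∂μ) ≤ ∫⁻ x, ENNReal.ofReal (f x) ∂μ := by
  have h1 : Integrable (fun x => max (f x) 0) μ := hf.pos_part
  have h2 := ofReal_integral_eq_lintegral_ofReal h1 (Filter.Eventually.of_forall fun x => le_max_right _ _)
  have h3 : ∫⁻ x, ENNReal.ofReal (max (f x) 0) ∂μ = ∫⁻ x, ENNReal.ofReal (f x) ∂μ := by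
    refine lintegral_congr fun x => ?_
    rcases le_total (f x) 0 with h | h
    · rw [max_eq_right h, ENNReal.ofReal_zero, ENNReal.ofReal_of_nonpos h]
    · rw [max_eq_left h]
  rw [← h3, ← h2]
  exact ENNReal.ofReal_le_ofReal (integral_mono hf h1 fun x => le_max_left _ _)

theorem final (d : ℕ) (hd : 2 ≤ d) (s p κ : ℝ) (hs : 1 / 2 < s) (hs2 : s < (d : ℝ) / 2)
    (hp : p = 2 * ((d : ℝ) + 1) / ((d : ℝ) - 2 * s)) (hκ : κ = gm d * p / 2)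
    (c : ℝ) (hc : 0 < c)
    (U_integrable : ∀ (k : ℕ) (a : ℂ), 0 < a.re → ∀ x : EuclideanSpace ℝ (Fin d),
      Integrable (fun ξ : EuclideanSpace ℝ (Fin d) =>
        Complex.exp (-(a * (‖ξ‖ : ℂ)) + Complex.I * ((inner ℝ x ξ : ℝ) : ℂ)) *
          ((‖ξ‖ ^ ((k : ℝ) - 1) : ℝ) : ℂ)))
    (U_complex : ∀ (a : ℂ), 0 < a.re → ∀ x : EuclideanSpace ℝ (Fin d),
      a ^ 2 + ((‖x‖ ^ 2 : ℝ) : ℂ) ∈ Complex.slitPlane ∧
      U d 0 a x = (c : ℂ) * (a ^ 2 + ((‖x‖ ^ 2 : ℝ) : ℂ)) ^ (((-gm d : ℝ)) : ℂ) ∧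
      U d 2 a x = U d 0 a x *
        (4 * (gm d : ℂ) * ((gm d : ℂ) + 1) * a ^ 2 / (a ^ 2 + ((‖x‖ ^ 2 : ℝ) : ℂ)) ^ 2 -
          2 * (gm d : ℂ) / (a ^ 2 + ((‖x‖ ^ 2 : ℝ) : ℂ))))
    (w_formulas : ∀ (γ t r : ℝ) (w : ℂ), w = (1 - Complex.I * (t : ℂ)) ^ 2 + ((r ^ 2 : ℝ) : ℂ) →
      ‖w‖ ^ 2 = (1 + (t + r) ^ 2) * (1 + (t - r) ^ 2) ∧ w ≠ 0 ∧
      (4 * (γ : ℂ) * ((γ : ℂ) + 1) * (1 - Complex.I * (t : ℂ)) ^ 2 / w ^ 2 - 2 * (γ : ℂ) / w).re =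
        γ * (γ + 1) * (2 * ca (t + r) ^ 2 - ca (t + r) + (2 * ca (t - r) ^ 2 - ca (t - r))) +
          2 * γ ^ 2 * (ca (t + r) * ca (t - r) * (1 - (t + r) * (t - r))))
    (conv : ∀ (p : ℝ), 1 ≤ p → ∀ (u q : ℂ) (ε : ℝ),
      ‖u‖ ^ p * (1 + p * ε * q.re) ≤ ‖u + (ε : ℂ) * (u * q)‖ ^ p)
    (moments : ∀ (e : ℝ), -(d : ℝ) < e →
      Integrable (fun ξ : EuclideanSpace ℝ (Fin d) => ‖ξ‖ ^ e * Real.exp (-2 * ‖ξ‖)) ∧
      0 < (∫ ξ : EuclideanSpace ℝ (Fin d), ‖ξ‖ ^ e * Real.exp (-2 * ‖ξ‖)) ∧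
      (∫ ξ : EuclideanSpace ℝ (Fin d), ‖ξ‖ ^ (e + 2) * Real.exp (-2 * ‖ξ‖)) =
        (e + d + 1) * (e + d) / 4 *
          ∫ ξ : EuclideanSpace ℝ (Fin d), ‖ξ‖ ^ e * Real.exp (-2 * ‖ξ‖))
    (rho_int : Integrable (fun q : ℝ × ℝ => rho κ (d - 1) q.1 q.2)
        ((volume : Measure ℝ).prod (volume.restrict (Set.Ioi 0))) ∧
      0 < ∫ q : ℝ × ℝ, rho κ (d - 1) q.1 q.2 ∂((volume : Measure ℝ).prod (volume.restrict (Set.Ioi 0))))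
    (R : ℝ)
    (loop : ∫ q : ℝ × ℝ, (gm d * (gm d + 1) * (2 * ca (q.1 + q.2) ^ 2 - ca (q.1 + q.2) +
          (2 * ca (q.1 - q.2) ^ 2 - ca (q.1 - q.2))) +
        2 * gm d ^ 2 * (ca (q.1 + q.2) * ca (q.1 - q.2) * (1 - (q.1 + q.2) * (q.1 - q.2)))) *
        rho κ (d - 1) q.1 q.2 ∂((volume : Measure ℝ).prod (volume.restrict (Set.Ioi 0))) =
      R * ∫ q : ℝ × ℝ, rho κ (d - 1) q.1 q.2 ∂((volume : Measure ℝ).prod (volume.restrict (Set.Ioi 0))))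
    (hR : R ≠ ((2 * s - 2) + d + 1) * ((2 * s - 2) + d) / 4)
    (radial : ∃ K : ℝ, 0 < K ∧ ∀ f : ℝ → ℝ → ℝ,
      Continuous (fun q : ℝ × ℝ => f q.1 q.2) →
      Integrable (fun q : ℝ × ℝ => f q.1 q.2 * q.2 ^ (d - 1))
        ((volume : Measure ℝ).prod (volume.restrict (Set.Ioi 0))) →
      Integrable (fun z : ℝ × EuclideanSpace ℝ (Fin d) => f z.1 ‖z.2‖) ∧
      ∫ z : ℝ × EuclideanSpace ℝ (Fin d), f z.1 ‖z.2‖ =
        K * ∫ q : ℝ × ℝ, f q.1 q.2 * q.2 ^ (d - 1)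
          ∂((volume : Measure ℝ).prod (volume.restrict (Set.Ioi 0))))
    (deriv_cmp : ∀ (p R T n : ℝ), 1 < p → 0 ≤ n →
      (∀ ε : ℝ, |ε| ≤ 1 → 0 ≤ 1 + 2 * T * ε + n * ε ^ 2 →
        1 + p * ε * R ≤ (1 + 2 * T * ε + n * ε ^ 2) ^ (p / 2)) → R = T) :
    ∃ g : EuclideanSpace ℝ (Fin d) → ℂ,
      Integrable (fun ξ : EuclideanSpace ℝ (Fin d) => ((‖ξ‖ ^ (-2 * s) : ℝ) : ℂ) * g ξ) ∧
      (∫⁻ ξ : EuclideanSpace ℝ (Fin d), ENNReal.ofReal (‖g ξ‖ ^ 2 * ‖ξ‖ ^ (-2 * s))) < ⊤ ∧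
      (∫⁻ z : ℝ × EuclideanSpace ℝ (Fin d),
              ‖∫ ξ : EuclideanSpace ℝ (Fin d),
                  Complex.exp (Complex.I * ((z.1 * ‖ξ‖ + inner ℝ z.2 ξ : ℝ) : ℂ))
                    * ((‖ξ‖ ^ (-2 * s) : ℝ) : ℂ)
                    * (((‖ξ‖ ^ (2 * s - 1) * Real.exp (-‖ξ‖)) : ℝ) : ℂ)‖ₑ ^ p)
            * (∫⁻ ξ : EuclideanSpace ℝ (Fin d), ENNReal.ofReal (‖g ξ‖ ^ 2 * ‖ξ‖ ^ (-2 * s))) ^ (p / 2)
        < (∫⁻ z : ℝ × EuclideanSpace ℝ (Fin d),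
              ‖∫ ξ : EuclideanSpace ℝ (Fin d),
                  Complex.exp (Complex.I * ((z.1 * ‖ξ‖ + inner ℝ z.2 ξ : ℝ) : ℂ))
                    * ((‖ξ‖ ^ (-2 * s) : ℝ) : ℂ) * g ξ‖ₑ ^ p)
            * (∫⁻ ξ : EuclideanSpace ℝ (Fin d),
                ENNReal.ofReal ((‖ξ‖ ^ (2 * s - 1) * Real.exp (-‖ξ‖)) ^ 2 * ‖ξ‖ ^ (-2 * s))) ^ (p / 2) := by
  classical
  have hd' : (2 : ℝ) ≤ d := by exact_mod_cast hd
  have hds : 0 < (d : ℝ) - 2 * s := by linarith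
  have hp1 : 1 < p := by
    rw [hp, lt_div_iff₀ hds]
    linarith
  have hp0 : 0 < p := by linarith
  have hγ : 0 ≤ gm d := by unfold gm; linarith
  have hae := j10850_ae hd
  have hare : ∀ t : ℝ, 0 < (1 - Complex.I * (t : ℂ)).re := by intro t; simp
  -- the formulas for the extension
  have hE0 : ∀ (t : ℝ) (x : EuclideanSpace ℝ (Fin d)),
      ∫ ξ : EuclideanSpace ℝ (Fin d), Complex.exp (Complex.I * ((t * ‖ξ‖ + inner ℝ x ξ : ℝ) : ℂ))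
        * ((‖ξ‖ ^ (-2 * s) : ℝ) : ℂ) * (((‖ξ‖ ^ (2 * s - 1) * Real.exp (-‖ξ‖)) : ℝ) : ℂ) =
      U d 0 (1 - Complex.I * (t : ℂ)) x := by
    intro t x
    refine integral_congr_ae (hae.mono fun ξ hξ => ?_)
    exact j10850_pt0 s t ‖ξ‖ (inner ℝ x ξ) (norm_pos_iff.2 hξ)
  have hEε : ∀ (ε t : ℝ) (x : EuclideanSpace ℝ (Fin d)),
      ∫ ξ : EuclideanSpace ℝ (Fin d), Complex.exp (Complex.I * ((t * ‖ξ‖ + inner ℝ x ξ : ℝ) : ℂ))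
        * ((‖ξ‖ ^ (-2 * s) : ℝ) : ℂ) *
        (((‖ξ‖ ^ (2 * s - 1) * Real.exp (-‖ξ‖) * (1 + ε * ‖ξ‖ ^ 2)) : ℝ) : ℂ) =
      U d 0 (1 - Complex.I * (t : ℂ)) x + (ε : ℂ) * U d 2 (1 - Complex.I * (t : ℂ)) x := by
    intro ε t x
    have h1 := U_integrable 0 _ (hare t) x
    have h2 := U_integrable 2 _ (hare t) x
    unfold U
    rw [← integral_const_mul, ← integral_add h1 (h2.const_mul _)]
    refine integral_congr_ae (hae.mono fun ξ hξ => ?_)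
    exact j10850_pt2 s t ‖ξ‖ (inner ℝ x ξ) ε (norm_pos_iff.2 hξ)
  -- norms
  let f0 : ℝ → ℝ → ℝ := fun t r => c ^ p * ((1 + (t + r) ^ 2) * (1 + (t - r) ^ 2)) ^ (-κ)
  have hf0 : ∀ (t : ℝ) (x : EuclideanSpace ℝ (Fin d)),
      ‖U d 0 (1 - Complex.I * (t : ℂ)) x‖ ^ p = f0 t ‖x‖ := by
    intro t x
    obtain ⟨_, hU, _⟩ := U_complex _ (hare t) x
    obtain ⟨hw, _, _⟩ := w_formulas (gm d) t ‖x‖ _ rfl
    rw [hU, norm_mul, Complex.norm_real, Real.norm_of_nonneg hc.le, Complex.norm_cpow_real,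
      Real.mul_rpow hc.le (by positivity), ← Real.rpow_mul (norm_nonneg _)]
    simp only [f0]
    rw [← hw]
    congr 1
    rw [← j10850_rp _ _ (norm_nonneg _)]
    congr 1
    rw [hκ]
    ring
  have hlow : ∀ (ε t : ℝ) (x : EuclideanSpace ℝ (Fin d)),
      f0 t ‖x‖ * (1 + p * ε * Rq (gm d) t ‖x‖) ≤
        ‖U d 0 (1 - Complex.I * (t : ℂ)) x + (ε : ℂ) * U d 2 (1 - Complex.I * (t : ℂ)) x‖ ^ p := by
    intro ε t x
    obtain ⟨_, hU, hU2⟩ := U_complex _ (hare t) x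
    obtain ⟨_, _, hq⟩ := w_formulas (gm d) t ‖x‖ _ rfl
    have h1 := conv p hp1.le (U d 0 (1 - Complex.I * (t : ℂ)) x)
      (4 * (gm d : ℂ) * ((gm d : ℂ) + 1) * (1 - Complex.I * (t : ℂ)) ^ 2 /
        ((1 - Complex.I * (t : ℂ)) ^ 2 + ((‖x‖ ^ 2 : ℝ) : ℂ)) ^ 2 -
        2 * (gm d : ℂ) / ((1 - Complex.I * (t : ℂ)) ^ 2 + ((‖x‖ ^ 2 : ℝ) : ℂ))) ε
    rw [← hU2, hq] at h1
    rw [← hf0 t x]
    exact h1
  -- radial integrals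
  obtain ⟨K, hK, hrad⟩ := radial
  obtain ⟨hρi, hρ0⟩ := rho_int
  set μ2 : Measure (ℝ × ℝ) := (volume : Measure ℝ).prod (volume.restrict (Set.Ioi 0)) with hμ2
  set ρI : ℝ := ∫ q : ℝ × ℝ, rho κ (d - 1) q.1 q.2 ∂μ2 with hρI
  have hcp : 0 < c ^ p := Real.rpow_pos_of_pos hc p
  have hf0c : Continuous fun q : ℝ × ℝ => f0 q.1 q.2 := by
    refine continuous_const.mul (Continuous.rpow_const (by fun_prop) fun q => Or.inl ?_)
    have h1 : 0 < 1 + (q.1 + q.2) ^ 2 := by positivity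
    have h2 : 0 < 1 + (q.1 - q.2) ^ 2 := by positivity
    exact (mul_pos h1 h2).ne'
  have hf0nn : ∀ t r, 0 ≤ f0 t r := fun t r => by positivity
  have hf0r : ∀ q : ℝ × ℝ, f0 q.1 q.2 * q.2 ^ (d - 1) = c ^ p * rho κ (d - 1) q.1 q.2 := by
    intro q
    simp only [f0, rho]
    ring
  have hi0 : Integrable (fun q : ℝ × ℝ => f0 q.1 q.2 * q.2 ^ (d - 1)) μ2 := by
    simp only [hf0r]
    exact hρi.const_mul _
  obtain ⟨hI0, hV0⟩ := hrad f0 hf0c hi0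
  have hV0' : ∫ z : ℝ × EuclideanSpace ℝ (Fin d), f0 z.1 ‖z.2‖ = K * c ^ p * ρI := by
    rw [hV0]
    simp only [hf0r]
    rw [integral_const_mul, mul_assoc]
  set P0 : ℝ := K * c ^ p * ρI with hP0
  have hP0p : 0 < P0 := by positivity
  have hRi : Integrable (fun q : ℝ × ℝ => Rq (gm d) q.1 q.2 * rho κ (d - 1) q.1 q.2) μ2 :=
    hρi.bdd_mul (Rq_continuous (gm d)).aestronglyMeasurable
      (Filter.Eventually.of_forall fun q => Rq_bd (gm d) hγ q.1 q.2)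
  have hRv : ∫ q : ℝ × ℝ, Rq (gm d) q.1 q.2 * rho κ (d - 1) q.1 q.2 ∂μ2 = R * ρI := loop
  have hf1 : ∀ ε : ℝ, Integrable (fun z : ℝ × EuclideanSpace ℝ (Fin d) =>
      f0 z.1 ‖z.2‖ * (1 + p * ε * Rq (gm d) z.1 ‖z.2‖)) ∧
      ∫ z : ℝ × EuclideanSpace ℝ (Fin d), f0 z.1 ‖z.2‖ * (1 + p * ε * Rq (gm d) z.1 ‖z.2‖) =
        P0 * (1 + p * ε * R) := by
    intro ε
    have e1 : ∀ q : ℝ × ℝ, f0 q.1 q.2 * (1 + p * ε * Rq (gm d) q.1 q.2) * q.2 ^ (d - 1) =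
        c ^ p * rho κ (d - 1) q.1 q.2 +
          c ^ p * (p * ε) * (Rq (gm d) q.1 q.2 * rho κ (d - 1) q.1 q.2) := by
      intro q
      have := hf0r q
      linear_combination (1 + p * ε * Rq (gm d) q.1 q.2) * this
    have h1 : Continuous fun q : ℝ × ℝ => f0 q.1 q.2 * (1 + p * ε * Rq (gm d) q.1 q.2) :=
      hf0c.mul (continuous_const.add (continuous_const.mul (Rq_continuous (gm d))))
    have h2 : Integrable (fun q : ℝ × ℝ =>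
        f0 q.1 q.2 * (1 + p * ε * Rq (gm d) q.1 q.2) * q.2 ^ (d - 1)) μ2 := by
      simp only [e1]
      exact (hρi.const_mul _).add (hRi.const_mul _)
    obtain ⟨h3, h4⟩ := hrad (fun t r => f0 t r * (1 + p * ε * Rq (gm d) t r)) h1 h2
    refine ⟨h3, ?_⟩
    rw [h4]
    simp only [e1]
    rw [integral_add (hρi.const_mul _) (hRi.const_mul _), integral_const_mul, integral_const_mul,
      hRv, hP0]
    ring
  -- moments
  have hm0 := moments (2 * s - 2) (by linarith)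
  have hm1 := moments (2 * s - 2 + 2) (by linarith)
  have hm2 := moments (2 * s - 2 + 2 + 2) (by linarith)
  set n0 : ℝ := ∫ ξ : EuclideanSpace ℝ (Fin d), ‖ξ‖ ^ (2 * s - 2) * Real.exp (-2 * ‖ξ‖) with hn0
  set n2 : ℝ := ∫ ξ : EuclideanSpace ℝ (Fin d),
    ‖ξ‖ ^ (2 * s - 2 + 2 + 2) * Real.exp (-2 * ‖ξ‖) with hn2
  set Tt : ℝ := ((2 * s - 2) + d + 1) * ((2 * s - 2) + d) / 4 with hTt
  have hNint : ∀ ε : ℝ, Integrable (fun ξ : EuclideanSpace ℝ (Fin d) =>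
      (‖ξ‖ ^ (2 * s - 1) * Real.exp (-‖ξ‖) * (1 + ε * ‖ξ‖ ^ 2)) ^ 2 * ‖ξ‖ ^ (-2 * s)) ∧
      ∫ ξ : EuclideanSpace ℝ (Fin d),
        (‖ξ‖ ^ (2 * s - 1) * Real.exp (-‖ξ‖) * (1 + ε * ‖ξ‖ ^ 2)) ^ 2 * ‖ξ‖ ^ (-2 * s) =
        n0 + 2 * ε * (Tt * n0) + ε ^ 2 * n2 := by
    intro ε
    have e1 : (fun ξ : EuclideanSpace ℝ (Fin d) =>
        (‖ξ‖ ^ (2 * s - 1) * Real.exp (-‖ξ‖) * (1 + ε * ‖ξ‖ ^ 2)) ^ 2 * ‖ξ‖ ^ (-2 * s)) =ᵐ[volume]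
        fun ξ => ‖ξ‖ ^ (2 * s - 2) * Real.exp (-2 * ‖ξ‖) +
          2 * ε * (‖ξ‖ ^ ((2 * s - 2) + 2) * Real.exp (-2 * ‖ξ‖)) +
        ε ^ 2 * (‖ξ‖ ^ ((2 * s - 2) + 2 + 2) * Real.exp (-2 * ‖ξ‖)) :=
      hae.mono fun ξ hξ => j10850_ptn s ‖ξ‖ ε (norm_pos_iff.2 hξ)
    have h1 := (hm0.1.add (hm1.1.const_mul (2 * ε))).add (hm2.1.const_mul (ε ^ 2))
    refine ⟨h1.congr e1.symm, ?_⟩
    rw [integral_congr_ae e1]
    have hA : Integrable (fun ξ : EuclideanSpace ℝ (Fin d) => ‖ξ‖ ^ (2 * s - 2) * Real.exp (-2 * ‖ξ‖) +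
          2 * ε * (‖ξ‖ ^ ((2 * s - 2) + 2) * Real.exp (-2 * ‖ξ‖))) :=
      hm0.1.add (hm1.1.const_mul (2 * ε))
    have hB : Integrable (fun ξ : EuclideanSpace ℝ (Fin d) =>
        2 * ε * (‖ξ‖ ^ ((2 * s - 2) + 2) * Real.exp (-2 * ‖ξ‖))) :=
      hm1.1.const_mul (2 * ε)
    have hC : Integrable (fun ξ : EuclideanSpace ℝ (Fin d) =>
        ε ^ 2 * (‖ξ‖ ^ ((2 * s - 2) + 2 + 2) * Real.exp (-2 * ‖ξ‖))) :=
      hm2.1.const_mul (ε ^ 2)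
    rw [integral_add hA hC, integral_add hm0.1 hB, integral_const_mul, integral_const_mul, hm0.2.2]
  have hNnn : ∀ ε : ℝ, 0 ≤ n0 + 2 * ε * (Tt * n0) + ε ^ 2 * n2 := by
    intro ε
    rw [← (hNint ε).2]
    exact integral_nonneg fun ξ => by positivity
  have hNl : ∀ ε : ℝ, ∫⁻ ξ : EuclideanSpace ℝ (Fin d), ENNReal.ofReal
      ((‖ξ‖ ^ (2 * s - 1) * Real.exp (-‖ξ‖) * (1 + ε * ‖ξ‖ ^ 2)) ^ 2 * ‖ξ‖ ^ (-2 * s)) =
      ENNReal.ofReal (n0 + 2 * ε * (Tt * n0) + ε ^ 2 * n2) := by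
    intro ε
    rw [← (hNint ε).2, ofReal_integral_eq_lintegral_ofReal (hNint ε).1
      (Filter.Eventually.of_forall fun ξ => by positivity)]
  have hN0 : ∫⁻ ξ : EuclideanSpace ℝ (Fin d), ENNReal.ofReal
      ((‖ξ‖ ^ (2 * s - 1) * Real.exp (-‖ξ‖)) ^ 2 * ‖ξ‖ ^ (-2 * s)) = ENNReal.ofReal n0 := by
    have := hNl 0
    simpa using this
  have hen : ∀ y : ℂ, ‖y‖ₑ ^ p = ENNReal.ofReal (‖y‖ ^ p) := by
    intro y
    rw [← ofReal_norm, ENNReal.ofReal_rpow_of_nonneg (norm_nonneg _) hp0.le]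
  have hL0 : ∫⁻ z : ℝ × EuclideanSpace ℝ (Fin d),
      ‖U d 0 (1 - Complex.I * (z.1 : ℂ)) z.2‖ₑ ^ p = ENNReal.ofReal P0 := by
    rw [← hV0', ofReal_integral_eq_lintegral_ofReal hI0
      (Filter.Eventually.of_forall fun z => hf0nn _ _)]
    refine lintegral_congr fun z => ?_
    rw [hen, hf0]
  have hL1 : ∀ ε : ℝ, ENNReal.ofReal (P0 * (1 + p * ε * R)) ≤
      ∫⁻ z : ℝ × EuclideanSpace ℝ (Fin d), ‖U d 0 (1 - Complex.I * (z.1 : ℂ)) z.2 +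
        (ε : ℂ) * U d 2 (1 - Complex.I * (z.1 : ℂ)) z.2‖ₑ ^ p := by
    intro ε
    rw [← (hf1 ε).2]
    refine (j10850_lint _ _ (hf1 ε).1).trans (lintegral_mono fun z => ?_)
    rw [hen]
    exact ENNReal.ofReal_le_ofReal (hlow ε z.1 z.2)
  -- contradiction
  by_contra hcon
  push Not at hcon
  apply hR
  have hn0p : 0 < n0 := hm0.2.1
  have hn2p : 0 ≤ n2 := hm2.2.1.le
  refine deriv_cmp p R Tt (n2 / n0) hp1 (by positivity) fun ε _ _ => ?_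
  have hg := hcon (fun ξ => (((‖ξ‖ ^ (2 * s - 1) * Real.exp (-‖ξ‖) * (1 + ε * ‖ξ‖ ^ 2)) : ℝ) : ℂ))
    (by
      have h1 := U_integrable 0 1 (by simp) 0
      have h2 := U_integrable 2 1 (by simp) 0
      refine (h1.add (h2.const_mul (ε : ℂ))).congr (hae.mono fun ξ hξ => ?_)
      have h3 := j10850_pt2 s 0 ‖ξ‖ 0 ε (norm_pos_iff.2 hξ)
      simp only [zero_mul, add_zero, Complex.ofReal_zero, mul_zero, Complex.exp_zero, one_mul,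
        sub_zero] at h3
      simp only [Pi.add_apply, inner_zero_left, Complex.ofReal_zero, mul_zero, add_zero, one_mul]
      exact h3.symm)
    (by
      have h4 : ∀ ξ : EuclideanSpace ℝ (Fin d),
          ‖(((‖ξ‖ ^ (2 * s - 1) * Real.exp (-‖ξ‖) * (1 + ε * ‖ξ‖ ^ 2)) : ℝ) : ℂ)‖ ^ 2 =
          (‖ξ‖ ^ (2 * s - 1) * Real.exp (-‖ξ‖) * (1 + ε * ‖ξ‖ ^ 2)) ^ 2 := fun ξ => by
        rw [Complex.norm_real, Real.norm_eq_abs, sq_abs]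
      simp only [h4, hNl]
      exact ENNReal.ofReal_lt_top)
  have h4 : ∀ ξ : EuclideanSpace ℝ (Fin d),
      ‖(((‖ξ‖ ^ (2 * s - 1) * Real.exp (-‖ξ‖) * (1 + ε * ‖ξ‖ ^ 2)) : ℝ) : ℂ)‖ ^ 2 =
      (‖ξ‖ ^ (2 * s - 1) * Real.exp (-‖ξ‖) * (1 + ε * ‖ξ‖ ^ 2)) ^ 2 := fun ξ => by
    rw [Complex.norm_real, Real.norm_eq_abs, sq_abs]
  simp only [h4, hNl, hEε, hE0, hN0, hL0] at hg
  have h5 := j10850_alg P0 n0 _ (1 + p * ε * R) p hP0p hn0p (hNnn ε) hp0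
    ((mul_le_mul' (hL1 ε) le_rfl).trans hg)
  refine h5.trans (le_of_eq ?_)
  congr 1
  field_simp

end J10850

end Pool.Agent.Cone
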