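import Pool.Agent.ConeOI.J10781
import Pool.Agent.ConeOI.J10782
import Pool.Agent.ConeOI.J10783
import Pool.Agent.ConeOI.J10784
import Pool.Agent.ConeOI.J10785
import Pool.Agent.ConeOI.J10786
import Pool.Agent.ConeOI.J10849
import Pool.Agent.ConeOI.J10850

set_option autoImplicit false
open MeasureTheory

namespace Pool.Agent.Cone

theorem only_if (d : ℕ) (hd : 2 ≤ d) (s p : ℝ) (hs : 1 / 2 < s) (hs2 : s < (d : ℝ) / 2)
    (hs3 : s ≠ ((d : ℝ) - 1) / 4)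
    (hp : p = 2 * ((d : ℝ) + 1) / ((d : ℝ) - 2 * s)) :
    ∃ g : EuclideanSpace ℝ (Fin d) → ℂ,
      Integrable (fun ξ : EuclideanSpace ℝ (Fin d) => ((‖ξ‖ ^ (-2 * s) : ℝ) : ℂ) * g ξ) ∧
      (∫⁻ ξ : EuclideanSpace ℝ (Fin d), ENNReal.ofReal (‖g ξ‖ ^ 2 * ‖ξ‖ ^ (-2 * s))) < ⊤ ∧
      (∫⁻ z : ℝ × EuclideanSpace ℝ (Fin d),
              ‖∫ ξ : EuclideanSpace ℝ (Fin d),
                  Complex.exp (Complex.I * ((z.1 * ‖ξ‖ + inner ℝ z.2 ξ : ℝ) : ℂ))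
                    * ((‖ξ‖ ^ (-2 * s) : ℝ) : ℂ)
                    * (((‖ξ‖ ^ (2 * s - 1) * Real.exp (-‖ξ‖)) : ℝ) : ℂ)‖ₑ ^ p)
            * (∫⁻ ξ : EuclideanSpace ℝ (Fin d), ENNReal.ofReal (‖g ξ‖ ^ 2 * ‖ξ‖ ^ (-2 * s))) ^ (p / 2)
        < (∫⁻ z : ℝ × EuclideanSpace ℝ (Fin d),
              ‖∫ ξ : EuclideanSpace ℝ (Fin d),
                  Complex.exp (Complex.I * ((z.1 * ‖ξ‖ + inner ℝ z.2 ξ : ℝ) : ℂ))
                    * ((‖ξ‖ ^ (-2 * s) : ℝ) : ℂ) * g ξ‖ₑ ^ p)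
            * (∫⁻ ξ : EuclideanSpace ℝ (Fin d),
                ENNReal.ofReal ((‖ξ‖ ^ (2 * s - 1) * Real.exp (-‖ξ‖)) ^ 2 * ‖ξ‖ ^ (-2 * s))) ^ (p / 2) := by
  obtain ⟨c, hc, hU⟩ := J10781.U_real d hd
  have hal := J10849.alg d hd s (gm d * (2 * ((d : ℝ) + 1) / ((d : ℝ) - 2 * s)) / 2) hs hs2 hs3 rfl
  rw [← hp] at hal
  obtain ⟨hκ, hR⟩ := hal
  have hD : 1 ≤ d - 1 := by omega
  have hrho := J10785.rho_integrable (gm d * p / 2) (d - 1) hD hκ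
  have hloop := J10786.loop (gm d * p / 2) (d - 1) hD hκ hrho.1
    (fun X Y X' Y' C h1 h2 h3 h4 h5 h6 h7 h8 h9 h10 h11 =>
      (J10785.ibp (gm d * p / 2) (d - 1) hD hκ X Y X' Y' C h1 h2 h3 h4 h5 h6 h7 h8 h9 h10 h11).2)
    (gm d)
  exact J10850.final d hd s p (gm d * p / 2) hs hs2 hp rfl c hc
    (fun k a ha x => J10782.U_integrable d k hd a ha x)
    (fun a ha x => J10783.U_complex d hd c hc hU
      (fun k a ha x => J10782.U_hasDerivAt d k hd a ha x) a ha x)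
    J10784.w_formulas
    J10784.conv
    (J10784.moments d hd)
    hrho _ hloop hR
    (J10849.radial d hd)
    J10849.deriv_cmp

end Pool.Agent.Cone
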